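import Pool.Agent.MP_ed9623_an.E16.Spec

/-! Absorption in the two Carleman estimates. -/

open MeasureTheory Filter Topology Set
open scoped ContDiff

namespace Pool.Agent.MP_ed9623_an.E16

open H64 H77 H77.Rc2

namespace Ab

variable {c : P} {s τ δ t₀ B K M : ℝ} {χ : ST → ℝ}

/-- The Laplacian in space. -/
noncomputable def lx (χ : ST → ℝ) : ST → ℝ := fun z =>
  pd ((0, ee 0) : ST) (pd ((0, ee 0) : ST) χ) z + pd ((0, ee 1) : ST) (pd ((0, ee 1) : ST) χ) z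

theorem sm_lx (h : ContDiff ℝ ∞ χ) : ContDiff ℝ ∞ (lx χ) :=
  (smS (smS h _) _).add (smS (smS h _) _)

theorem lx_off {z : ST} (hz : z ∉ tsupport χ) : lx χ z = 0 := by
  simp only [lx, (zero_off_supp hz).2.2, add_zero]

theorem lx_one {z : ST} (hz : χ =ᶠ[𝓝 z] fun _ => 1) : lx χ z = 0 := by
  have : ∀ e : ST, pd e (fun _ : ST => (1 : ℝ)) = fun _ => 0 := fun e => funext fun y =>
    pd_const e y 1
  simp only [lx, fun e => pd_congr_pt e (pd_congr e hz), this, pd_const, add_zero]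

theorem exists_cut2 (c : P) (t : ℝ) (hs : 0 < s) (hδ : 0 < δ) :
    ∃ B K χ, Cut c s t δ B K χ ∧ ∀ z ∈ tsupport χ, |lx χ z| ≤ B := by
  obtain ⟨B, K, χ, h⟩ := exists_Cut c t hs hδ
  obtain ⟨B', hB⟩ := h.cs.isCompact.exists_bound_of_continuousOn
    (sm_lx h.sm).continuous.continuousOn
  have m := le_max_left B B'
  exact ⟨max B B', K, χ, ⟨h.sm, h.cs, h.sp, h.bd, h.one, h.B0.trans m, fun z hz =>
    ⟨(h.bB z hz).1.trans m, fun i => ⟨((h.bB z hz).2 i).1.trans m, ((h.bB z hz).2 i).2.trans m⟩⟩,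
    h.bK⟩, fun z hz => (hB z hz).trans (le_max_right _ _)⟩

theorem sml (h : Cut c s t₀ δ B K χ) (hs : 0 < s) (hδ : 0 < δ) (hτ : 0 ≤ τ) {u : ST → ℝ}
    (h0 : ∀ z, z ∉ tsupport χ → u z = 0) (h1 : ∀ z, (χ =ᶠ[𝓝 z] fun _ => 1) → u z = 0)
    (h2 : ∀ z ∈ tsupport χ, |u z| ≤ B) (t : ℝ) {f : P → ℝ} (mf : M2 f) (nf : nm f ≤ M)
    (hv : Van (Dc c (21 / 20 * s)) f) :
    nm (fun x => wsl c s τ δ t₀ u t x * f x) ≤ Real.exp (τ * (9 / 100 * s ^ 2)) * B * M :=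
  have α0 := mul_nonneg (Real.exp_pos (τ * (9 / 100 * s ^ 2))).le h.B0
  (nm_le mf α0 (Eventually.mono hv fun x hx => h.small hs hδ hτ h0 h1 h2 t x hx)).trans
    (mul_le_mul_of_nonneg_left nf α0)

/-- The slice of the cut-off with the time factor of the weight. -/
noncomputable def sl (s τ δ t₀ : ℝ) (u : ST → ℝ) (t : ℝ) (x : P) : ℝ :=
  Real.exp (-(τ * (s ^ 2 / δ ^ 2 * ((t - t₀) * (t - t₀))))) * u (t, x)

theorem ew_sl (u : ST → ℝ) (t : ℝ) (x : P) :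
    ew c s τ x * sl s τ δ t₀ u t x = wsl c s τ δ t₀ u t x := by
  rw [ew, sl, ← mul_assoc, ← Real.exp_add, wsl, Ew]
  congr 2
  change _ = τ * (H64.mm c s (0, x) * H64.mm c s (0, x) - s ^ 2 / δ ^ 2 * ((t - t₀) * (t - t₀)))
  ring

theorem pd_sl' {u : ST → ℝ} (h : ContDiff ℝ ∞ u) (t : ℝ) (e : P) :
    pd e (sl s τ δ t₀ u t) = sl s τ δ t₀ (pd ((0, e) : ST) u) t := funext fun x => by
  unfold sl
  rw [← pd_sl h]
  exact pd_const_mul _ _ (sm_diff (h.comp (contDiff_const.prodMk contDiff_id)) x)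

theorem lp_sl (h : ContDiff ℝ ∞ χ) (t : ℝ) (x : P) :
    lp (sl s τ δ t₀ χ t) x = sl s τ δ t₀ (lx χ) t x := by
  simp only [lp, pd_sl' h, pd_sl' (smS h _), sl, lx]
  ring

theorem five {a : ℝ} {f k : P → ℝ} {g : Fin 2 → P → ℝ} (mf : M2 f) (mg : ∀ i, M2 (g i))
    (mk : M2 k) (hf : nm f ≤ a) (hg : ∀ i, nm (g i) ≤ a) :
    nm (fun x => f x + 2 * ∑ i, g i x - k x) ≤ 5 * a + nm k := by
  simp only [Fin.sum_univ_two]
  have b1 := nm_sub_le (mf.add (((mg 0).add (mg 1)).cmul 2)) mk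
  have b2 := nm_add_le mf (((mg 0).add (mg 1)).cmul 2)
  have b3 := nm_add_le (mg 0) (mg 1)
  rw [nm_cmul, abs_two] at b2
  linarith [hg 0, hg 1]

/-- The conclusion of `ElS` for given parameters. -/
def El (c : P) (s τ C : ℝ) : Prop :=
  ∀ (N : Set P) (χ z G : P → ℝ) (d : Fin 2 → P → ℝ), IsOpen N → Test (An c s ∩ N) χ → M2 z →
    M2 G → (∀ i, M2 (d i) ∧ WD univ (ee i) z (d i)) →
    (∀ φ, Test N φ → ∑ i, ∫ x, d i x * pd (ee i) φ x = ∫ x, G x * φ x) →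
    ∀ᵐ x, τ * (ew c s τ x * (χ x * z x)) ^ 2 ≤ C * nm (fun x => ew c s τ x *
      (lp χ x * z x + 2 * ∑ i, pd (ee i) χ x * d i x - χ x * G x)) ^ 2

theorem est {C : ℝ} {N : Set P} {z : ℝ → E6} {W : ℝ → L} {D : Fin 2 → ℝ → L}
    {F : ℝ → P → ℝ} {Wt : L} {t : ℝ} (hE : El c s τ C) (hC : C ≤ τ) (hs : 0 < s) (hδ : 0 < δ)
    (hτ : 0 < τ) (hM : 0 ≤ M) (hN : IsOpen N) (h : Cut c s t₀ δ B K χ)
    (hx : ∀ z ∈ tsupport χ, |lx χ z| ≤ B) (hsub : Dc c (3 / 2 * s) ⊆ N) (hY : z t ∈ YZ univ)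
    (hV : Vt N M (z t) (W t) Wt (fun i => D i t) (F t))
    (hv : ∀ j, Van (Dc c (21 / 20 * s)) (vl (z t) j)) (c2 : 48 * M ^ 2 ≤ τ * s / 8)
    (c3 : 0 ≤ 4 * τ ^ 3 * s ^ 4 - 64 * τ - 2 * τ ^ 2 * K) :
    cR c s τ (s ^ 2 / δ ^ 2) t₀ χ W D F t
        ≤ 100 * (Real.exp (τ * (9 / 100 * s ^ 2)) * B * M) ^ 2 + 4 * (Real.exp (τ * s ^ 2) * M) ^ 2 ∧
      cR c s τ (s ^ 2 / δ ^ 2) t₀ χ W D F t
        ≤ (100 + 768 * M ^ 2) * (Real.exp (τ * (9 / 100 * s ^ 2)) * B * M) ^ 2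
          + 1 / 2 * cL c s τ (s ^ 2 / δ ^ 2) t₀ K χ W D t := by
  have hχN : ∀ z ∈ tsupport χ, z.2 ∈ N := fun z hz =>
    hsub (lt_trans (h.sp z hz).2.1 (by linarith))
  have oD := isOpen_Dc c (21 / 20 * s)
  have vd : ∀ j i, Van (Dc c (21 / 20 * s)) (gj (z t) j i) := fun j i =>
    (hY.1 j).van oD (subset_univ _) Gam.zero (hv j) i
  have vW : Van (Dc c (21 / 20 * s)) (W t) := by
    filter_upwards [hV.cu, vd 1 0, vd 0 1] with x a b d hx
    rw [a (hsub (lt_trans (b := 21 / 20 * s) hx (by linarith))), b hx, d hx, sub_zero]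
  have vD : ∀ i, Van (Dc c (21 / 20 * s)) (D i t) := fun i =>
    ((hV.wd i).mono (subset_univ _)).van oD (M2.coe _) vW
  have nW : nm (W t) ≤ M := nm_coe (W t) ▸ hV.nb.2.1
  have nD : ∀ i, nm (D i t) ≤ M := fun i => nm_coe (D i t) ▸ hV.nb.2.2 i
  have p1 : ∀ (e z : ST), (χ =ᶠ[𝓝 z] fun _ => 1) → pd e χ z = 0 := fun e z hz => by
    rw [pd_congr_pt e hz, pd_const]
  have p2 : ∀ z : ST, (χ =ᶠ[𝓝 z] fun _ => 1) → Lh χ z = 0 := fun z hz => by
    have : ∀ e : ST, pd e (fun _ : ST => (1 : ℝ)) = fun _ => 0 := fun e => funext fun y =>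
      pd_const e y 1
    rw [Lh_congr hz]
    simp [Lh, this, pd_const]
  have s1 := fun (i : Fin 2) {f : P → ℝ} => sml (M := M) (f := f) h hs hδ hτ.le
    (u := pd ((0, ee i) : ST) χ) (fun _ hz => (zero_off_supp hz).2.1 _) (p1 _)
    (fun z hz => ((h.bB z hz).2 i).1) t
  have s2 := sml h hs hδ hτ.le (fun _ hz => Lh_zero hz) p2 (fun z hz => (h.bB z hz).1) t
    (M2.coe (W t)) nW vW
  have s3 := fun j => sml h hs hδ hτ.le (fun _ => lx_off) (fun _ => lx_one) hx t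
    (m2_vl (z t) j) ((nb_norm (z t) j).1.trans hV.nb.1) (hv j)
  have t0 := h.t0 hχN τ t
  have t1 := h.t1 τ t
  have t3 : Test univ (wsl c s τ δ t₀ (lx χ) t) :=
    test_wsl h.cs (fun _ _ => mem_univ _) (sm_lx h.sm) (fun _ => lx_off) t
  have tχ : Test (An c s ∩ N) (sl s τ δ t₀ χ t) :=
    (slice (N := An c s ∩ N) h.cs (fun z hz => ⟨⟨(h.sp z hz).1, (h.sp z hz).2.1⟩, hχN z hz⟩) h.sm
      (fun _ hz => (zero_off_supp hz).1) t).cmul _
  rw [cR_eq, cL_eq h]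
  generalize Real.exp (τ * (9 / 100 * s ^ 2)) * B * M = a at s1 s2 s3 ⊢
  have a0 : 0 ≤ a := (nm_nonneg _).trans s2
  have b1 := five ((M2.coe (W t)).tmul (h.t2 τ t)) (fun i => (M2.coe (D i t)).tmul (t1 i))
    (hV.mF.1.tmul t0) s2 fun i => s1 i (M2.coe _) (nD i) (vD i)
  have b2 := pow_le_pow_left₀ (nm_nonneg _) b1 2
  have b3 : 2 * (5 * a + nm fun x => wsl c s τ δ t₀ χ t x * F t x) ^ 2
      ≤ 100 * a ^ 2 + 4 * nm (fun x => wsl c s τ δ t₀ χ t x * F t x) ^ 2 := by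
    nlinarith [sq_nonneg (5 * a - nm fun x => wsl c s τ δ t₀ χ t x * F t x)]
  constructor
  · have a1 : nm (fun x => wsl c s τ δ t₀ χ t x * F t x) ≤ Real.exp (τ * s ^ 2) * M :=
      (nm_bmul hV.mF.1 (Real.exp_pos _).le (Eventually.of_forall (h.sup hs hτ.le t))).trans
        (mul_le_mul_of_nonneg_left hV.mF.2 (Real.exp_pos _).le)
    linarith [pow_le_pow_left₀ (nm_nonneg _) a1 2]
  obtain ⟨X, hX⟩ : ∃ X : Fin 2 → ℝ, ∀ i, X i = nm fun x => wsl c s τ δ t₀ χ t x * D i t x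
    + wsl c s τ δ t₀ (pd ((0, ee i) : ST) χ) t x * W t x := ⟨_, fun _ => rfl⟩
  have X0 : ∀ i, 0 ≤ X i := fun i => hX i ▸ nm_nonneg _
  have a2 : ∀ i, nm (fun x => wsl c s τ δ t₀ χ t x * D i t x) ≤ X i + a := fun i => by
    have := nm_sub_le (((M2.coe (D i t)).tmul t0).add ((M2.coe (W t)).tmul (t1 i)))
      ((M2.coe (W t)).tmul (t1 i))
    simp only [add_sub_cancel_right] at this
    linarith [s1 i (M2.coe _) nW vW, hX i]
  have k : ∀ (j : Fin 2) (G : P → ℝ), M2 G →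
      nm (fun x => wsl c s τ δ t₀ χ t x * G x) ≤ X 0 + X 1 + a →
      (∀ φ, Test N φ → ∑ i, ∫ x, gj (z t) j i x * pd (ee i) φ x = ∫ x, G x * φ x) →
      ∀ᵐ x, |wsl c s τ δ t₀ χ t x * vl (z t) j x| ≤ 6 * a + X 0 + X 1 := fun j G mG nG hG => by
    have e := hE N _ _ G (gj (z t) j) hN tχ (m2_vl _ j) mG (H1O.zero_iff.1 (hY.1 j)).2 hG
    have e' : (fun x => ew c s τ x * (lp (sl s τ δ t₀ χ t) x * vl (z t) j x
        + 2 * ∑ i, pd (ee i) (sl s τ δ t₀ χ t) x * gj (z t) j i x - sl s τ δ t₀ χ t x * G x))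
        = fun x => wsl c s τ δ t₀ (lx χ) t x * vl (z t) j x
          + 2 * ∑ i, wsl c s τ δ t₀ (pd ((0, ee i) : ST) χ) t x * gj (z t) j i x
          - wsl c s τ δ t₀ χ t x * G x := funext fun x => by
      simp only [lp_sl h.sm, pd_sl' h.sm, ← ew_sl, Fin.sum_univ_two]
      ring
    have f := five ((m2_vl (z t) j).tmul t3) (fun i => (m2_gj (z t) j i).tmul (t1 i))
      (mG.tmul t0) (s3 j) fun i => s1 i (m2_gj _ j i)
        (((nb_norm (z t) j).2 i).trans hV.nb.1) (vd j i)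
    rw [e'] at e
    filter_upwards [e] with x hx
    rw [← mul_assoc, ew_sl] at hx
    have g1 := pow_le_pow_left₀ (nm_nonneg _) (f.trans (b := _) (c := 6 * a + X 0 + X 1)
      (by linarith)) 2
    have g2 := hx.trans ((mul_le_mul_of_nonneg_right hC (sq_nonneg _)).trans
      (mul_le_mul_of_nonneg_left g1 hτ.le))
    exact abs_le.2 (abs_le_of_sq_le_sq' (le_of_mul_le_mul_left g2 hτ)
      (by linarith [X0 0, X0 1]))
  have mu := hV.mu _ (6 * a + X 0 + X 1) t0 (by linarith [X0 0, X0 1]) (Fin.forall_fin_two.2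
    ⟨k 0 _ (M2.coe (D 1 t)) (by linarith [a2 1, X0 0]) hV.e0,
      k 1 _ (M2.coe (D 0 t)).neg (by
        simp only [mul_neg]
        rw [nm_neg]
        linarith [a2 0, X0 1]) hV.e1⟩)
  simp only [Fin.sum_univ_two, ← hX] at mu ⊢
  have m1 := mu.trans (mul_le_mul_of_nonneg_left (c := 2 * X 0 + 2 * X 1 + 8 * a)
    (by linarith [a2 0, a2 1]) hM)
  have m2 := pow_le_pow_left₀ (nm_nonneg _) m1 2
  have m3 : (2 * X 0 + 2 * X 1 + 8 * a) ^ 2 ≤ 12 * (X 0 ^ 2 + X 1 ^ 2) + 192 * a ^ 2 := by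
    nlinarith [sq_nonneg (X 0 - X 1), sq_nonneg (X 0 - 4 * a), sq_nonneg (X 1 - 4 * a)]
  have m4 := mul_le_mul_of_nonneg_left m3 (sq_nonneg M)
  have m5 := mul_le_mul_of_nonneg_right c2 (add_nonneg (sq_nonneg (X 0)) (sq_nonneg (X 1)))
  have m6 := mul_nonneg c3 (sq_nonneg (nm fun x => wsl c s τ δ t₀ χ t x * W t x))
  simp only [Fin.sum_univ_two] at b2
  rw [mul_pow] at m2
  linarith

theorem ev_p (hs : 0 < s) (K : ℝ) :
    ∀ᶠ τ : ℝ in atTop, τ ≤ 4 * τ ^ 3 * s ^ 4 - 64 * τ - 2 * τ ^ 2 * K := by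
  have hs4 : 0 < s ^ 4 := by positivity
  filter_upwards [eventually_ge_atTop 1, eventually_ge_atTop ((65 + 2 * |K|) / s ^ 4)] with τ h1 h3
  rw [div_le_iff₀ hs4] at h3
  have t2 : τ ≤ τ ^ 2 := by nlinarith
  have u1 := mul_le_mul_of_nonneg_left h3 (sq_nonneg τ)
  have u2 := mul_le_mul_of_nonneg_left (le_abs_self K) (sq_nonneg τ)
  have u4 : 0 ≤ τ ^ 3 * s ^ 4 := by positivity
  nlinarith

theorem bound (h1 : RcBS) {C : ℝ} {N : Set P} {z : ℝ → E6} {W : ℝ → L} {D : Fin 2 → ℝ → L}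
    {F : ℝ → P → ℝ} (hE : El c s τ C) (hC : C ≤ τ) (hs : 0 < s) (hδ : 0 < δ)
    (hτ : 0 < τ) (hM : 0 ≤ M) (hN : IsOpen N) (h : Cut c s t₀ δ B K χ)
    (hx : ∀ z ∈ tsupport χ, |lx χ z| ≤ B) (hsub : Dc c (3 / 2 * s) ⊆ N) (hW : ContDiff ℝ ∞ W)
    (hY : ∀ t, z t ∈ YZ univ) (hV : ∀ t, Vt N M (z t) (W t) (deriv W t) (fun i => D i t) (F t))
    (hv : ∀ t j, Van (Dc c (21 / 20 * s)) (vl (z t) j)) (c2 : 48 * M ^ 2 ≤ τ * s / 8)
    (c3 : 0 ≤ 4 * τ ^ 3 * s ^ 4 - 64 * τ - 2 * τ ^ 2 * K) :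
    Integrable (cL c s τ (s ^ 2 / δ ^ 2) t₀ K χ W D) ∧ ∫ t, cL c s τ (s ^ 2 / δ ^ 2) t₀ K χ W D t
      ≤ Real.exp (τ * (9 / 100 * s ^ 2)) ^ 2 * (8 * δ * (100 + 768 * M ^ 2) * (B * M) ^ 2) := by
  set J := Icc (t₀ - 2 * δ) (t₀ + 2 * δ) with hJd
  have rc := fun b => h1 c s τ (s ^ 2 / δ ^ 2) t₀ K M χ N W D F b hs hτ.le hN h.sm h.cs
    (fun z hz => ⟨hsub (lt_trans (h.sp z hz).2.1 (by linarith)), (h.sp z hz).1.le,
      (h.sp z hz).2.1.le, h.bK z hz⟩) hW (fun t => (hV t).nb.2.2) (fun t => (hV t).wd)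
    fun t => ⟨(hV t).mF.1, (hV t).mF.2, (hV t).ht⟩
  have es := fun t => est hE hC hs hδ hτ hM hN h hx hsub (hY t) (hV t) (hv t) c2 c3
  have iJ : ∀ a : ℝ, Integrable (J.indicator fun _ => a) := fun a =>
    (integrable_indicator_iff measurableSet_Icc).2 (integrableOn_const measure_Icc_lt_top.ne)
  have vJ : ∀ a : ℝ, ∫ t, J.indicator (fun _ => a) t = 4 * δ * a := fun a => by
    rw [integral_indicator measurableSet_Icc, setIntegral_const, smul_eq_mul,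
      Real.volume_real_Icc_of_le (by linarith)]
    ring
  have int := (rc _ (iJ _) fun t => by
    by_cases ht : t ∈ J
    · rw [indicator_of_mem ht]
      exact (es t).1
    · rw [cR_off h ht, indicator_of_notMem ht]).1
  have pos : ∀ t, 0 ≤ cL c s τ (s ^ 2 / δ ^ 2) t₀ K χ W D t := fun t => by
    rw [cL_eq h]
    exact add_nonneg (mul_nonneg (by positivity) (Finset.sum_nonneg fun _ _ => sq_nonneg _))
      (mul_nonneg c3 (sq_nonneg _))
  have iS := int.const_mul (1 / 2)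
  have fin := (rc _ ((iJ _).fun_add iS) fun t => by
    by_cases ht : t ∈ J
    · rw [indicator_of_mem ht]
      exact (es t).2
    · rw [cR_off h ht, indicator_of_notMem ht]
      linarith [pos t]).2
  rw [integral_add (iJ _) iS, integral_const_mul, vJ] at fin
  exact ⟨int, by linarith⟩

end Ab

open Ab in
theorem rowAb : OfAb := by
  intro hE h1 c s M N z W D F hs hM hN hW hY hsub hV hv t₀
  obtain ⟨B, K, χ, h, hx⟩ := exists_cut2 c t₀ hs one_pos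
  obtain ⟨C, -, hE⟩ := hE c s hs
  have cq := ct_q0 c
  have kc : IsCompact {x : P | qq c (0, x) ≤ 11 / 10 * s} :=
    ((cpt c (11 / 10 * s) 0 0).image continuous_snd).of_isClosed_subset
      (isClosed_le cq continuous_const) fun x hx => ⟨(0, x), ⟨hx, by simp⟩, rfl⟩
  obtain ⟨m, hm, m01, m1⟩ := exists_cut kc (isOpen_lt cq (continuous_const (y := 23 / 20 * s)))
    fun x hx => lt_of_le_of_lt (b := 11 / 10 * s) hx (by linarith)
  obtain ⟨T, hT⟩ := exists_mul hm.top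
  have cΨ : Continuous fun t => ‖T (W t)‖ := (T.continuous.comp hW.continuous).norm
  have eΨ : ∀ t, ‖T (W t)‖ = nm fun x => m x * W t x := fun t => by
    rw [← nm_coe]; exact nm_congr (hT _)
  have vW : ∀ t, Van (Dc c (21 / 20 * s)) (W t) := fun t => by
    have vd := fun j => ((hY t).1 j).van (isOpen_Dc c _) (subset_univ _) Gam.zero (hv t j)
    filter_upwards [(hV t).cu, vd 1 0, vd 0 1] with x a b d hx
    rw [a (hsub (lt_trans (b := 21 / 20 * s) hx (by linarith))), b hx, d hx, sub_zero]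
  have z0 : ‖T (W t₀)‖ = 0 := by
    by_contra hne
    have hp : 0 < ‖T (W t₀)‖ / 2 := half_pos (lt_of_le_of_ne (norm_nonneg _) (Ne.symm hne))
    set κ := ‖T (W t₀)‖ / 2 with hκ
    obtain ⟨η₀, hη₀, hη⟩ := Metric.eventually_nhds_iff.1
      (cΨ.continuousAt.eventually (lt_mem_nhds (show κ < ‖T (W t₀)‖ by linarith)))
    set η := min (η₀ / 2) (1 / 10) with hηd
    have η0 : 0 < η := lt_min (by positivity) (by positivity)
    have η1 : η ≤ η₀ / 2 := min_le_left _ _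
    have η2 : η ≤ 1 / 10 := min_le_right _ _
    obtain ⟨τ, ⟨hE, c3⟩, ⟨hτ, hC⟩, c2, hA⟩ := ((hE.and (ev_p hs K)).and
      (((eventually_gt_atTop 0).and (eventually_ge_atTop C)).and
        ((eventually_ge_atTop (384 * M ^ 2 / s)).and (eventually_gt_atTop
          (8 * 1 * (100 + 768 * M ^ 2) * (B * M) ^ 2 / (2 * η * κ ^ 2)))))).exists
    rw [div_le_iff₀ hs] at c2
    obtain ⟨i1, i2⟩ := bound h1 hE hC hs one_pos hτ hM hN h hx hsub hW hY hV hv (by linarith)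
      (hτ.le.trans c3)
    set E := Real.exp (τ * (9 / 100 * s ^ 2)) with hEd
    have E0 : 0 < E := Real.exp_pos _
    have i3 : ∫ t, (Icc (t₀ - η) (t₀ + η)).indicator (fun _ => τ * (E * κ) ^ 2) t ≤ _ :=
      integral_mono ((integrable_indicator_iff measurableSet_Icc).2
        (integrableOn_const measure_Icc_lt_top.ne)) i1 fun t => by
        rw [cL_eq h]
        have n1 : 0 ≤ τ * s / 4 * ∑ i, nm (fun x => wsl c s τ 1 t₀ χ t x * D i t x
            + wsl c s τ 1 t₀ (pd ((0, ee i) : ST) χ) t x * W t x) ^ 2 :=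
          mul_nonneg (by positivity) (Finset.sum_nonneg fun _ _ => sq_nonneg _)
        by_cases ht : t ∈ Icc (t₀ - η) (t₀ + η)
        swap
        · rw [indicator_of_notMem ht]
          exact add_nonneg n1 (mul_nonneg (hτ.le.trans c3) (sq_nonneg _))
        rw [indicator_of_mem ht]
        have ht1 : |t - t₀| ≤ η := abs_le.2 ⟨by linarith [ht.1], by linarith [ht.2]⟩
        have a1 : κ < nm fun x => m x * W t x := by
          rw [← eΨ]
          exact hη (by rw [Real.dist_eq]; linarith)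
        have a2 : nm (fun x => E * (m x * W t x)) ≤ nm fun x => wsl c s τ 1 t₀ χ t x * W t x := by
          refine nm_mono ((M2.coe _).tmul (h.t0 (N := univ) (fun _ _ => mem_univ _) τ t)) ?_
          filter_upwards [vW t] with x hx
          exact h.low hs one_pos hτ.le (ht1.trans η2) x
            (by rw [abs_of_nonneg (m01 x).1]; exact (m01 x).2)
            (fun h0 => hm.2.2 (subset_tsupport m h0)) hx
        rw [nm_cmul, abs_of_pos E0] at a2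
        have a3 : E * κ ≤ nm fun x => wsl c s τ 1 t₀ χ t x * W t x :=
          (mul_le_mul_of_nonneg_left a1.le E0.le).trans a2
        exact le_add_of_nonneg_of_le n1 (mul_le_mul c3 (pow_le_pow_left₀ (by positivity) a3 2)
          (sq_nonneg _) (hτ.le.trans c3))
    rw [integral_indicator measurableSet_Icc, setIntegral_const, smul_eq_mul,
      Real.volume_real_Icc_of_le (by linarith)] at i3
    rw [div_lt_iff₀ (by positivity)] at hA
    have i4 := mul_lt_mul_of_pos_left hA (pow_pos E0 2)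
    have i5 := i3.trans i2
    nlinarith
  rw [eΨ] at z0
  filter_upwards [nm_eq_zero ((M2.coe _).tmul hm) z0] with x hx hq
  have : m x = 1 := m1.self_of_nhdsSet x (le_of_lt (a := qq c (0, x)) hq)
  rwa [this, one_mul] at hx

end Pool.Agent.MP_ed9623_an.E16
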