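import Pool.Agent.MP_ed9623_an.E16.Spec
import Pool.Agent.MP_ed9623_an.S64.BGeo
import Pool.Agent.MP_ed9623_an.S64.BOsc
import Pool.Agent.MP_ed9623_an.S64.GCha
import Pool.Agent.MP_ed9623_an.H77.Near2

/-! If the outer boundary is not a circle, some convex point has varying curvature. -/

open MeasureTheory Filter Topology Set
open scoped ContDiff

namespace Pool.Agent.MP_ed9623_an.E16

open H64 H77

namespace Geo

theorem inside {ρ : P → ℝ} {c : P} {R : ℝ} (hs : ContDiff ℝ ∞ ρ) (R0 : 0 < R)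
    (hb : ∀ x, qc c x = R ^ 2 → ρ x = 0) {x₀ : P} (h0 : qc c x₀ = R ^ 2) (hd : fderiv ℝ ρ x₀ ≠ 0)
    (hk : 0 < curvature ρ x₀) : ∃ y, ρ y < 0 ∧ qc c y < R ^ 2 := by
  have hρ : ∀ k : ℕ, ContDiff ℝ k ρ := fun k => hs.of_le (by exact_mod_cast le_top)
  have hr : ∀ k : ℕ, ContDiff ℝ k fun y : ST => ρ y.2 := fun k => (hρ k).comp contDiff_snd
  have c2 : ∀ k : ℕ, ContDiff ℝ k fun y => qq c y - R ^ 2 := fun k => by fun_prop
  have h1 : qq c (0, x₀) = R ^ 2 := (Near2.qq_eq c x₀).trans h0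
  obtain ⟨W, b1, b2⟩ := exists_div (n := 2) (z₀ := (0, x₀)) (c2 _).contDiffAt (hr _).contDiffAt
    (sub_eq_zero.2 h1) (fderiv_ne_of_curv (by
      rw [Near2.curv_mul (W := fun _ => 1) contDiffAt_const h1 (by simp)]; positivity))
    (Eventually.of_forall fun y hy => hb _ ((Near2.qq_eq c y.2).symm.trans (sub_eq_zero.1 hy)))
  have b3 := (tend_sl (0, x₀)).eventually b2
  have k0 : 0 < curv2 ρ x₀ :=
    (div_pos_iff_of_pos_right (pow_pos (Real.sqrt_pos.2 (Near2.grad_pos hd)) 3)).1 hk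
  rw [← curv_snd (hρ 2) (0, x₀), Near2.curv_mul b1 h1 b2] at k0
  have W0 : 0 < W (0, x₀) := (Odd.pow_pos_iff (by decide : Odd 3)).1
    ((mul_pos_iff_of_pos_left (by positivity)).1 k0)
  obtain ⟨x, k1, k2, k3⟩ := ((mem_closure_iff_frequently.1 (mem_closure_neg (hb _ h0) hd)).and_eventually
    (b3.and ((tend_sl (0, x₀)).eventually (b1.continuousAt.eventually (lt_mem_nhds W0))))).exists
  refine ⟨x, k1, ?_⟩
  rw [← Near2.qq_eq]
  exact sub_neg.1 (neg_of_mul_neg_left (k2.symm.trans_lt k1) k3.le)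

end Geo

open S64.BGeo in
theorem rowGeo2 : GeoS := by
  intro ρ hρ hreg hb hc hC
  have hO : S64.OscS := S64.rowOsc S64.rowCha
  by_contra n
  have n' : ∀ x, ρ x = 0 → 0 < curvature ρ x → dcurvature ρ x = 0 := fun x a b => by
    by_contra c
    exact n ⟨x, a, b, c⟩
  have osc : ∀ x, ρ x = 0 → 0 < curvature ρ x → ∃ (c : P) (R : ℝ), 0 < R ∧ ∀ᶠ y in 𝓝 x,
      (ρ y = 0 ↔ qc c y = R ^ 2) ∧ (ρ y = 0 → curvature ρ y = R⁻¹) := fun x a b =>
    hO ρ x hρ a b ((continuousAt_const.eventually_lt (cont hρ (hreg x a)) b).mono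
      fun y d e => n' y e d)
  obtain ⟨x, h0, hk⟩ := H77.exists_convex hρ hreg hb hc.1
  obtain ⟨c, R, hR, hx⟩ := osc x h0 hk
  let U : Set P := {x | ∀ᶠ y in 𝓝 x, (ρ y = 0 ↔ qc c y = R ^ 2) ∧ (ρ y = 0 → curvature ρ y = R⁻¹)}
  have oU : IsOpen U := isOpen_setOfPred_eventually_nhds
  have cl : closure ({x | ρ x = 0} ∩ U) ⊆ U := by
    intro y hy
    have y0 : ρ y = 0 :=
      closure_minimal inter_subset_left (isClosed_eq hρ.continuous continuous_const) hy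
    have fr := mem_closure_iff_frequently.1 hy
    have yk : curvature ρ y = R⁻¹ := by
      by_contra a
      obtain ⟨z, b, d⟩ := (fr.and_eventually ((cont hρ (hreg y y0)).eventually_ne a)).exists
      exact d (b.2.self_of_nhds.2 b.1)
    obtain ⟨c', R', hR', hy'⟩ := osc y y0 (yk ▸ inv_pos.2 hR)
    obtain ⟨z, b, d⟩ := (fr.and_eventually hy'.eventually_nhds).exists
    obtain ⟨rfl, rfl⟩ := two hR hR' (b.2.self_of_nhds.1.1 b.1)
      ((Eventually.and b.2 d).mono fun w e f => e.2.1.1 (e.1.1.2 f))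
    exact hy'
  have x1 := hx.self_of_nhds.1.1 h0
  have s2 := conn (Near2.circle c R) oU cl (fun y a => ⟨a.2.self_of_nhds.1.2 a.1, a.2⟩) ⟨x, x1, hx⟩
  obtain ⟨z, z1, z2⟩ := Geo.inside hρ hR (fun y a => (s2 a).1) x1 (hreg x h0) hk
  refine hC ⟨c, R, hR, fun y => ⟨fun a => ?_, fun a => (s2 a).1⟩⟩
  by_contra b
  obtain ⟨w, w1, w2⟩ := hc.2.intermediate_value z1 a (sm_qc c).continuous.continuousOn
    ⟨z2.le, not_lt.1 b⟩
  exact (ne_of_lt w1) (s2 w2).1

end Pool.Agent.MP_ed9623_an.E16
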