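import Pool.Agent.MP_ed9623_an.E16.Spec
import Pool.Agent.MP_ed9623_an.R1.All

/-! Two complete bounded solutions with the same pressure coincide or are steady. -/

open MeasureTheory Filter Topology Set
open scoped ContDiff

namespace Pool.Agent.MP_ed9623_an.E16

open H64 H77

namespace Key

theorem near {ρ : P → ℝ} {x : P} {δ : ℝ} (hx : ρ x = 0) (hd : fderiv ℝ ρ x ≠ 0) (hδ : 0 < δ) :
    ∃ y, ρ y < 0 ∧ ∃ ε : ℝ, 0 < ε ∧ Metric.ball y ε ⊆ Metric.ball x δ := by
  have h : ∃ y ∈ Metric.ball x δ, ρ y < 0 := by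
    by_contra k
    refine hd (IsLocalMin.fderiv_eq_zero ?_)
    filter_upwards [Metric.ball_mem_nhds x hδ] with y hy
    rw [hx]
    exact not_lt.1 fun a => k ⟨y, hy, a⟩
  obtain ⟨y, hy, h0⟩ := h
  obtain ⟨ε, hε, s⟩ := Metric.isOpen_iff.1 Metric.isOpen_ball y hy
  exact ⟨y, h0, ε, hε, s⟩

theorem mono {N N' : Set P} {f : P → ℝ} (h : Van N f) (s : N' ⊆ N) : Van N' f :=
  Filter.Eventually.mono h fun _ a b => a (s b)

end Key

theorem rowKey : OfKey := by
  intro hSt hPer hGeo ρ hρ hreg hb hc g R a w hP hT hJ hy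
  have hO : IsOpen {x | ρ x < 0} := isOpen_lt hρ.continuous continuous_const
  by_cases hci : Circ ρ
  · exact Or.inl (xCirc ρ _ R a w hρ hreg hc.2 hci hP hT hy)
  obtain ⟨x, hx, hk, hdk⟩ := hGeo ρ hρ hreg hb hc hci
  rcases hPer ρ x g R a w hρ hreg hb hc.2 hx hk hdk hP hT with h | ⟨δ, hδ, h⟩ | ⟨n, hn, h⟩
  · exact Or.inl (Or.inl h)
  · obtain ⟨y, hy0, ε, hε, s⟩ := Key.near hx (hreg x hx) hδ
    have va : ∀ t j, a t ∈ VanS (Metric.ball y ε) (j, none) := fun t j => Key.mono (h t j).1 s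
    have vw : ∀ t k j, w (t + k) - w t ∈ VanS (Metric.ball y ε) (j, none) :=
      fun t k j => Key.mono ((h t j).2 k) s
    have p1 := hSt _ g R (fun t => a t + w t) hO hc.2 hP.mg
      (fun t => Submodule.add_mem _ (hP.ma t) (hP.mw t)) hP.s1 ⟨y, hy0, ε, hε, fun t k j => by
        have e : a (t + k) + w (t + k) - (a t + w t) = a (t + k) - a t + (w (t + k) - w t) := by
          abel
        have m := Submodule.add_mem _ (Submodule.sub_mem _ (va (t + k) j) (va t j)) (vw t k j)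
        rw [← e] at m
        exact m⟩
    have p2 := hSt _ g R (fun t => a t - w t) hO hc.2 hP.mg
      (fun t => Submodule.sub_mem _ (hP.ma t) (hP.mw t)) hP.s2 ⟨y, hy0, ε, hε, fun t k j => by
        have e : a (t + k) - w (t + k) - (a t - w t) = a (t + k) - a t - (w (t + k) - w t) := by
          abel
        have m := Submodule.sub_mem _ (Submodule.sub_mem _ (va (t + k) j) (va t j)) (vw t k j)
        rw [← e] at m
        exact m⟩
    refine Or.inr fun t => ?_
    have q1 : a t + w t = a 0 + w 0 := p1 t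
    have q2 : a t - w t = a 0 - w 0 := p2 t
    have e1 : a t = (1 / 2 : ℝ) • (a t + w t + (a t - w t)) := by module
    have e2 : a 0 = (1 / 2 : ℝ) • (a 0 + w 0 + (a 0 - w 0)) := by module
    have ea : a t = a 0 := by rw [e1, q1, q2, ← e2]
    exact ⟨ea, add_left_cancel (ea ▸ q1 : a 0 + w t = a 0 + w 0)⟩
  · obtain ⟨N, o, c, s, v, y, hy1, r⟩ :=
      R1.rowNb S64.rowYz (S64.rowNh S64.rowCha) R1.rowCz R1.rowWRes R1.aHy ρ x n g R a w hρ hx
        (hreg x hx) hk hn hP h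
    obtain ⟨Z, hN, hZ⟩ := R1.rowZn R1.aHy n _ N g R a w hn hO hP hT hJ o c ⟨y, hy1⟩ s v
    exact Or.inl (Or.inr fun t _ => eq_zero_of_van (hP.ma t).1
      (R1.aZon ρ n Z g R a w hρ hreg hb hc.2 hZ ⟨y, hN hy1, r⟩ t))

end Pool.Agent.MP_ed9623_an.E16
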