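import Pool.Agent.MP_ed9623_an.E16.Spec

/-! The Carleman estimate for weak solutions with a bounded gradient. -/

open MeasureTheory Filter Topology Set
open scoped ContDiff

namespace Pool.Agent.MP_ed9623_an.E16

open H64 H77

open Rc1 Dens in
theorem rowRcB : RcBS := by
  have h1 : Mol1S := rowMol1
  have h2 : Mol2S := rowMol2
  intro c s τ β t₀ K M χ N W D F b hs hτ hN hχ hc hsup hW hD hw hF hb hR
  have hJ : IsCompact (Prod.fst '' tsupport χ) := hc.isCompact.image continuous_fst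
  obtain ⟨δ, δ0, hδ⟩ := (hc.isCompact.image continuous_snd).exists_thickening_subset_open hN
    (by rintro _ ⟨z, hz, rfl⟩; exact (hsup z hz).1)
  obtain ⟨k, e, hk, he, e1', -⟩ := kers h2 δ0
  obtain ⟨E, hE⟩ : ∃ E : ST → ℝ, ∀ z, E z = Real.exp (τ * wt c s β t₀ z) := ⟨_, fun _ => rfl⟩
  have cE : Continuous E := by rw [funext hE]; fun_prop
  obtain ⟨m, hm⟩ : ∃ m : ℕ → ST → ℝ, ∀ n, m n = fun z : ST => mol (k n) (W z.1) z.2 :=
    ⟨_, fun _ => rfl⟩
  have kt : ∀ n, Test univ (k n) := fun n => (hk n).test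
  have sm : ∀ n, ContDiff ℝ ∞ (m n) := fun n => hm n ▸ ((h1 _ (kt n)).2 W hW).1
  have d1 : ∀ n i z, pd ((0, ee i) : ST) (m n) z = mol (k n) (D i z.1) z.2 := fun n i z => by
    rw [hm, ((h1 _ (kt n)).2 W hW).2.2]
    exact mol_wd (kt n) (hw z.1 i) fun _ _ => mem_univ _
  have d2 : ∀ n i z, pd ((0, ee i) : ST) (pd ((0, ee i) : ST) (m n)) z =
      mol (pd (ee i) (k n)) (D i z.1) z.2 := fun n i z => by
    rw [hm, ((h1 _ (kt n)).2 W hW).2.2, ((h1 _ ((kt n).pd _)).2 W hW).2.2]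
    exact mol_wd ((kt n).pd _) (hw z.1 i) fun _ _ => mem_univ _
  have d3 : ∀ n z, χ z * Lh (m n) z = -χ z * mol (k n) (F z.1) z.2 := fun n z => by
    by_cases hz : z ∈ tsupport χ
    · have q := (hF z.1).2.2 _ (((kt n).refl z.2).mono fun y hy => hδ
        (Metric.mem_thickening_iff.2 ⟨z.2, ⟨z, hz, rfl⟩, by
          rw [dist_comm, dist_eq_norm]
          exact (mem_ball_zero_iff.1 ((hk n).1.2.2 hy)).trans_le (e1' n)⟩))
      simp only [pd_refl (kt n).1, mul_neg, integral_neg, Fin.sum_univ_two] at q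
      have q0 : pd e0 (m n) z = mol (k n) (deriv W z.1 : L) z.2 := by
        rw [hm, ((h1 _ (kt n)).2 W hW).2.1]
      have q1 : pd e1 (pd e1 (m n)) z = _ := d2 n 0 z
      have q2 : pd e2 (pd e2 (m n)) z = _ := d2 n 1 z
      rw [Lh, q0, q1, q2]
      simp only [mol]
      rw [← q]
      ring
    · rw [image_eq_zero_of_notMem_tsupport hz, neg_zero, zero_mul, zero_mul]
  have bL : ∀ G : ℝ → L, Continuous G → ∃ M', ∀ t ∈ Prod.fst '' tsupport χ,
      M2 (G t) ∧ nm (G t) ≤ M' := fun G hG => by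
    obtain ⟨C, hC⟩ := hJ.exists_bound_of_continuousOn hG.continuousOn
    exact ⟨C, fun t ht => ⟨M2.coe _, nm_coe (G t) ▸ hC t ht⟩⟩
  obtain ⟨MW, bW⟩ := bL W hW.continuous
  have bD : ∀ i, ∀ t ∈ Prod.fst '' tsupport χ, M2 (D i t) ∧ nm (D i t) ≤ M :=
    fun i t _ => ⟨M2.coe _, nm_coe (D i t) ▸ hD t i⟩
  have bF : ∀ t ∈ Prod.fst '' tsupport χ, M2 (F t) ∧ nm (F t) ≤ M :=
    fun t _ => ⟨(hF t).1, (hF t).2.1⟩
  have χ2 : ContDiff ℝ (2 : ℕ) χ := contDiff_infty.1 hχ 2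
  have cχ := hχ.continuous
  have cd : ∀ i, Continuous (pd ((0, ee i) : ST) χ) := fun i => (smd hχ _).continuous
  have cLh := ct_Lh χ2
  have A : ∀ {a : ST → ℝ}, Continuous a → (∀ z, z ∉ tsupport χ → a z = 0) →
      ∀ {G : ℝ → P → ℝ} {M : ℝ}, (∀ t ∈ Prod.fst '' tsupport χ, M2 (G t) ∧ nm (G t) ≤ M) →
      Ap (Prod.fst '' tsupport χ) (fun n z => E z * a z * mol (k n) (G z.1) z.2)
        fun z => E z * a z * G z.1 z.2 := fun ha h0 _ _ hG =>
    ap_mol h2 hk he hc (cE.mul ha) (fun z hz => by rw [Pi.mul_apply, h0 z hz, mul_zero]) hG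
  have z0 : ∀ z, z ∉ tsupport χ → χ z = 0 := fun z hz => (zero_off_supp hz).1
  have z1 : ∀ i z, z ∉ tsupport χ → pd ((0, ee i) : ST) χ z = 0 :=
    fun i z hz => (zero_off_supp hz).2.1 _
  obtain ⟨f, hf⟩ : ∃ f : ℕ → ST → ℝ, ∀ n, f n = fun z => χ z * m n z := ⟨_, fun _ => rfl⟩
  have sf : ∀ n, ContDiff ℝ ∞ (f n) := fun n => hf n ▸ hχ.mul (sm n)
  have cf : ∀ n, HasCompactSupport (f n) := fun n => hf n ▸ hc.mul_right
  have tf : ∀ n, tsupport (f n) ⊆ tsupport χ := fun n => hf n ▸ tsupport_mul_subset_left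
  have A0 : Ap _ (fun n z => E z * f n z) fun z => E z * (χ z * W z.1 z.2) :=
    (A cχ z0 bW).congr (fun n z => by rw [hf, hm, mul_assoc]) fun z => mul_assoc _ _ _
  have A1 : ∀ i, Ap _ (fun n z => E z * pd ((0, ee i) : ST) (f n) z)
      fun z => E z * (χ z * D i z.1 z.2 + pd ((0, ee i) : ST) χ z * W z.1 z.2) := fun i =>
    ((A cχ z0 (bD i)).add (A (cd i) (z1 i) bW)).congr (fun n z => by
      rw [hf, pd_mul _ (dif hχ z) (dif (sm n) z), d1, hm]; ring) fun z => by ring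
  have A2 : Ap _ (fun n z => E z * Lh (f n) z) fun z => E z * (Lh χ z * W z.1 z.2
      + 2 * ∑ i, pd ((0, ee i) : ST) χ z * D i z.1 z.2 - χ z * F z.1 z.2) :=
    (((A cLh (fun z hz => Lh_zero hz) bW).add
      ((A (a := fun z => 2 * pd ((0, ee 0) : ST) χ z) (continuous_const.mul (cd 0))
        (fun z hz => by rw [z1 0 z hz, mul_zero]) (bD 0)).add
      (A (a := fun z => 2 * pd ((0, ee 1) : ST) χ z) (continuous_const.mul (cd 1))
        (fun z hz => by rw [z1 1 z hz, mul_zero]) (bD 1)))).add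
      (A (a := fun z => -χ z) cχ.neg (fun z hz => by rw [z0 z hz, neg_zero]) bF)).congr
      (fun n z => by
        have q1 : pd e1 (m n) z = _ := d1 n 0 z
        have q2 : pd e2 (m n) z = _ := d1 n 1 z
        have q3 : m n z = mol (k n) (W z.1) z.2 := by rw [hm]
        have q4 : ((0, ee 0) : ST) = e1 := rfl
        have q5 : ((0, ee 1) : ST) = e2 := rfl
        rw [hf, Lh_mul hχ (sm n), d3, q1, q2, q3, q4, q5]
        ring) fun z => by rw [Fin.sum_univ_two]; ring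
  have i0 : ∀ n, Integrable fun z => (E z * f n z) ^ 2 := fun n =>
    integrable_of_supp (cf n) ((cE.mul (sf n).continuous).pow 2) fun z hz => by
      rw [(zero_off_supp hz).1]; ring
  have i1 : ∀ i n, Integrable fun z => (E z * pd ((0, ee i) : ST) (f n) z) ^ 2 := fun i n =>
    integrable_of_supp (cf n) ((cE.mul (smd (sf n) _).continuous).pow 2) fun z hz => by
      rw [(zero_off_supp hz).2.1]; ring
  have i2 : ∀ n, Integrable fun z => (E z * Lh (f n) z) ^ 2 := fun n =>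
    integrable_of_supp (cf n) ((cE.mul (ct_Lh (contDiff_infty.1 (sf n) 2))).pow 2) fun z hz => by
      rw [Lh_zero hz]; ring
  obtain ⟨j0, l0⟩ := A0.lim hJ i0
  obtain ⟨j1, l1⟩ := (A1 0).lim hJ (i1 0)
  obtain ⟨j2, l2⟩ := (A1 1).lim hJ (i1 1)
  obtain ⟨j3, l3⟩ := A2.lim hJ i2
  obtain ⟨κ, hκ⟩ : ∃ κ, κ = 4 * τ ^ 3 * s ^ 4 - 64 * τ - 2 * τ ^ 2 * K := ⟨_, rfl⟩
  have sp : ∀ {Ω : Type} [MeasurableSpace Ω] {μ : Measure Ω} {x y z : Ω → ℝ}, Integrable x μ →
      Integrable y μ → Integrable z μ → ∫ p, (τ * s / 4 * (x p + y p) + κ * z p) ∂μ =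
        τ * s / 4 * (∫ p, x p ∂μ + ∫ p, y p ∂μ) + κ * ∫ p, z p ∂μ := fun hx hy hz => by
    rw [← integral_add hx hy, ← integral_const_mul, ← integral_const_mul]
    exact integral_add ((hx.add hy).const_mul _) (hz.const_mul _)
  have eL : cL c s τ β t₀ K χ W D = fun t => τ * s / 4 *
      ((∫ x, (E (t, x) * (χ (t, x) * D 0 t x + pd ((0, ee 0) : ST) χ (t, x) * W t x)) ^ 2) +
        ∫ x, (E (t, x) * (χ (t, x) * D 1 t x + pd ((0, ee 1) : ST) χ (t, x) * W t x)) ^ 2)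
      + κ * ∫ x, (E (t, x) * (χ (t, x) * W t x)) ^ 2 := funext fun t => by
    rw [← sp ((A1 0).cv t).mg.int_sq ((A1 1).cv t).mg.int_sq (A0.cv t).mg.int_sq, cL]
    refine integral_congr_ae (Eventually.of_forall fun x => ?_)
    simp only [Fin.sum_univ_two, ← hE, ← hκ]
    ring
  have eR : cR c s τ β t₀ χ W D F = fun t => 2 * ∫ x, (E (t, x) * (Lh χ (t, x) * W t x
      + 2 * ∑ i, pd ((0, ee i) : ST) χ (t, x) * D i t x - χ (t, x) * F t x)) ^ 2 :=
    funext fun t => by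
      rw [← integral_const_mul, cR]
      refine integral_congr_ae (Eventually.of_forall fun x => ?_)
      simp only [← hE]
      ring
  rw [eR] at hR
  rw [eL]
  refine ⟨((j1.add j2).const_mul _).add (j0.const_mul _),
    le_trans ?_ (integral_mono (j3.const_mul 2) hb hR)⟩
  rw [sp j1 j2 j0, integral_const_mul]
  refine le_of_tendsto_of_tendsto' (((l1.add l2).const_mul _).add (l0.const_mul _))
    (l3.const_mul 2) fun n => ?_
  have := carleman_f c (β := β) (t := t₀) (K := K) hs hτ (contDiff_infty.1 (sf n) 2) (cf n)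
    fun z hz => (hsup z (tf n hz)).2
  rw [← sp (i1 0 n) (i1 1 n) (i0 n), ← integral_const_mul]
  refine le_of_eq_of_le (integral_congr_ae (Eventually.of_forall fun z => ?_))
    (this.trans_eq (integral_congr_ae (Eventually.of_forall fun z => ?_)))
  · have q4 : ((0, ee 0) : ST) = e1 := rfl
    have q5 : ((0, ee 1) : ST) = e2 := rfl
    simp only [← hE, ← hκ, gr, q4, q5]
    ring
  · simp only [← hE]
    ring

end Pool.Agent.MP_ed9623_an.E16
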