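import Pool.Agent.MP_ed9623_an.E16.Spec

/-! Interior second derivatives of stationary solutions. -/

open MeasureTheory Filter Topology Set
open scoped ContDiff

namespace Pool.Agent.MP_ed9623_an.E16

open H64 H77

namespace Rg

theorem pd_tr (x : P) {φ : P → ℝ} (hφ : ContDiff ℝ ∞ φ) (l : Fin 2) (p : P) :
    pd (ee l) (fun p => φ (Th x (1, 0) (fun _ => 0) p)) p = pd (ee l) φ (x + p) := by
  obtain ⟨-, -, -, h, -⟩ := rowTh x (1, 0) (fun _ => 0) (by simp) Gam.zero
  have := (h φ hφ).1 l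
  rw [dd_zero, AnaP.tv_tr] at this
  rw [this]
  simp only [Th_tr]

/-- Weak derivatives read back from the translation chart. -/
theorem wd_back (x : P) (r : ℝ) (l : Fin 2) {f g : P → ℝ}
    (h : WD (Q r) (ee l) (fun p => f (x + p)) g) :
    WD (Metric.ball x r) (ee l) f fun q => g (q - x) := by
  intro φ hφ
  obtain ⟨-, -, -, -, ht, -⟩ := rowTh x (1, 0) (fun _ => 0) (by simp) Gam.zero
  have hψ : Test (Q r) fun p => φ (Th x (1, 0) (fun _ => 0) p) :=
    (ht _ φ hφ).1.mono fun p hp => by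
      rw [Q_eq_ball]
      simpa [Th_tr] using hp
  have e := h _ hψ
  simp only [pd_tr x hφ.1] at e
  simp only [Th_tr] at e
  rw [← integral_add_left_eq_self (fun q => f q * pd (ee l) φ q) x,
    ← integral_add_left_eq_self (fun q => g (q - x) * φ q) x]
  simp only [add_sub_cancel_left]
  exact e

end Rg

open Rg in
theorem rowRg : RgS := by
  intro Ω x R hΩ hx
  obtain ⟨r, hc⟩ := exists_ch hΩ hx
  have r0 := hc.r0
  obtain ⟨M, M0, hM⟩ := wGp Ω x _ _ _ r R hc
  obtain ⟨C, C0, hC⟩ := wH2 r (r / 2) (4 * R) (by linarith) (by linarith)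
  obtain ⟨-, mi, -⟩ := rowTh x (1, 0) (fun _ => 0) hc.un Gam.zero
  have hb : ∀ p ∈ Metric.ball x (r / 2), p - x ∈ Q (r / 2) := fun p hp => by
    rw [Q_eq_ball, mem_ball_zero_iff, ← dist_eq_norm]
    exact hp
  refine ⟨r / 2, M + C, by linarith, by linarith, fun p hp => ?_, fun u du f h => ⟨fun j => ?_, ?_⟩⟩
  · have a := Q_mono (show r / 2 ≤ r by linarith) (hb p hp)
    have := (hc.mem _ a).2 (abs_lt.1 (mem_Q.1 a).2).1
    rwa [Th_tr, add_sub_cancel] at this
  · filter_upwards [(hM u du f h).1.1 j] with p a hp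
    have : |u j p| ≤ M := a (by rw [mem_preimage, AnaP.Thi_tr]; exact hb p hp)
    linarith
  · have hP := Gp.p2_chart rowTh wTrans hc h
    rw [Qp_low le_rfl] at hP
    have key : ∀ j i, ∃ g : Fin 2 → P → ℝ, ∀ l, M2 (g l) ∧ nm (g l) ≤ M + C ∧
        WD (Metric.ball x (r / 2)) (ee l) (du j i) (g l) := fun j i => by
      obtain ⟨g, hg⟩ := wHb.1 _ 0 _ C ((hP.vf.h1 j).md i) C0 (hC 1 _ _ _ (by simp) hP j i)
      refine ⟨fun l q => g l (q - x), fun l => ?_⟩
      obtain ⟨a, b, c, -⟩ := hg l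
      have a1 := Gp.m2_comp mi a
      have a2 := Gp.nm_comp mi a
      simp only [AnaP.Thi_tr] at a1 a2
      rw [AnaP.td_tr] at c
      simp only [Th_tr] at c
      exact ⟨a1, by rw [a2]; linarith, wd_back x _ l c⟩
    choose q hq using key
    exact ⟨q, hq⟩

end Pool.Agent.MP_ed9623_an.E16
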