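import Pool.Agent.MP_ed9623_an.E16.Spec

/-! A solution which is steady on an open set is steady. -/

open MeasureTheory Filter Topology Set
open scoped ContDiff

namespace Pool.Agent.MP_ed9623_an.E16

open H64 H77

theorem St.shift {Ω : Set P} {g : Fin 2 → P → ℝ} {R : ℝ} {U : ℝ → E6} (hU : Sv Ω g R U) (h : ℝ) :
    Sv Ω g R fun t => U (t + h) :=
  ⟨hU.1.comp (contDiff_id.add contDiff_const), fun t => by
    rw [deriv_comp_add_const]
    exact hU.2 (t + h)⟩

theorem rowSt : OfSt := by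
  intro hUv hVt Ω g R U hΩ hc hg hm hU ⟨x, hx, ε, hε, hv⟩ t
  have hy : ∀ s, U (s + t) - U s ∈ YZ Ω := fun s => (YZ Ω).sub_mem (hm _).1 (hm _).1
  have hz := hUv Ω (fun s => U (s + t) - U s) hΩ hc
    (fun s => ⟨(hy s).1, fun ix => Eventually.of_forall fun _ a => absurd (mem_univ _) a⟩)
    (hVt Ω g R (fun s => U (s + t)) U hΩ hg (fun s => hm _) hm (St.shift hU t) hU)
    ⟨x, hx, ε, hε, fun s j => hv s t j⟩
  have := eq_zero_of_van (hy 0) (hz 0)
  rwa [zero_add, sub_eq_zero] at this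

end Pool.Agent.MP_ed9623_an.E16
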