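import Pool.Agent.MP_ed9623_an.E16.Spec

/-! Unique continuation for the curl system in a connected open set. -/

open MeasureTheory Filter Topology Set
open scoped ContDiff

namespace Pool.Agent.MP_ed9623_an.E16

open H64 H77

namespace Uv

theorem convex_Dc (c : P) (s : ℝ) : Convex ℝ (Dc c s) := by
  intro x hx y hy a b ha hb hab
  have hx' : (x.1 - c.1) * (x.1 - c.1) + (x.2 - c.2) * (x.2 - c.2) < s := hx
  have hy' : (y.1 - c.1) * (y.1 - c.1) + (y.2 - c.2) * (y.2 - c.2) < s := hy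
  change (a * x.1 + b * y.1 - c.1) * (a * x.1 + b * y.1 - c.1)
    + (a * x.2 + b * y.2 - c.2) * (a * x.2 + b * y.2 - c.2) < s
  obtain rfl : b = 1 - a := by linarith
  have e : (a * x.1 + (1 - a) * y.1 - c.1) * (a * x.1 + (1 - a) * y.1 - c.1)
      + (a * x.2 + (1 - a) * y.2 - c.2) * (a * x.2 + (1 - a) * y.2 - c.2)
      = a * ((x.1 - c.1) * (x.1 - c.1) + (x.2 - c.2) * (x.2 - c.2))
        + (1 - a) * ((y.1 - c.1) * (y.1 - c.1) + (y.2 - c.2) * (y.2 - c.2))
        - a * (1 - a) * ((x.1 - y.1) ^ 2 + (x.2 - y.2) ^ 2) := by ring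
  have p : 0 ≤ a * (1 - a) * ((x.1 - y.1) ^ 2 + (x.2 - y.2) ^ 2) := by positivity
  rw [e]
  rcases ha.eq_or_lt with rfl | ha'
  · linarith
  · nlinarith [mul_lt_mul_of_pos_left hx' ha', mul_le_mul_of_nonneg_left hy'.le hb]

theorem int_van {O : Set P} {f φ : P → ℝ} (hf : Van O f) (hφ : Test O φ) :
    ∫ x, f x * φ x = 0 := by
  rw [int_test_congr (g := fun _ => 0) (fun _ => hφ.off) hf]
  simp

theorem step (ab : AbS) (c : P) (s M : ℝ) (N : Set P) (z : ℝ → E6) (W : ℝ → L)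
    (D : Fin 2 → ℝ → L) (F : ℝ → P → ℝ) (hs : 0 < s) (hM : 0 ≤ M) (hN : IsOpen N)
    (hW : ContDiff ℝ ∞ W) (hY : ∀ t, z t ∈ YZ univ) (hsub : Dc c (3 / 2 * s) ⊆ N)
    (hV : ∀ t, Vt N M (z t) (W t) (deriv W t) (fun i => D i t) (F t))
    (h0 : ∀ t j, Van (Dc c (21 / 20 * s)) (vl (z t) j)) (t : ℝ) (j : Fin 2) :
    Van (Dc c (11 / 10 * s)) (vl (z t) j) := by
  have hW0 := ab c s M N z W D F hs hM hN hW hY hsub hV h0 t
  have hO := isOpen_Dc c (11 / 10 * s)
  have hON : Dc c (11 / 10 * s) ⊆ N := fun y hy => hsub (by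
    have hy' : qq c (0, y) < 11 / 10 * s := hy
    change qq c (0, y) < 3 / 2 * s
    linarith)
  have hD : ∀ i, Van (Dc c (11 / 10 * s)) (D i t) := fun i =>
    WD.van hO (((hV t).wd i).mono (subset_univ _)) (M2.coe _) hW0
  refine xUc univ _ (fun _ => z t) isOpen_univ hO (convex_Dc c _).isPreconnected contDiff_const
    (fun _ => hY t) (fun x hx => ⟨_, 0, hO, hx, le_rfl, fun t' _ => ⟨fun _ _ => 0, ?_⟩⟩)
    ⟨c, ?_, √s / 2, by positivity, fun _ _ k => (h0 t k).mono fun y hy => ?_⟩ 0 (mem_univ _) j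
  · refine ⟨fun _ => ⟨M2.zero, nm_zero.le⟩, fun k φ hφ => ?_, fun ψ _ => by simp [nm]⟩
    have a : ∫ x, vl (deriv (fun _ : ℝ => z t) t') k x * φ x = 0 := by
      rw [deriv_const]
      refine int_van (O := Dc c (11 / 10 * s)) ?_ hφ
      have : vl (0 : E6) k =ᵐ[volume] 0 := Lp.coeFn_zero ℝ 2 (volume : Measure P)
      exact this.mono fun p hp _ => hp
    have b : ∑ i, ∫ x, gj (z t) k i x * pd (ee i) φ x = 0 := by
      fin_cases k
      · exact ((hV t).e0 φ (hφ.mono hON)).trans (int_van (hD 1) hφ)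
      · exact ((hV t).e1 φ (hφ.mono hON)).trans (int_van (hD 0).neg hφ)
    rw [a, b]
    simp
  · change (c.1 - c.1) * (c.1 - c.1) + (c.2 - c.2) * (c.2 - c.2) < 11 / 10 * s
    simp only [sub_self, mul_zero, add_zero]
    positivity
  · have := Uc.qq_lt 0 (Metric.mem_ball.1 hy)
    change qq c (0, y) < 21 / 20 * s
    nlinarith [Real.sq_sqrt hs.le]

end Uv

theorem rowUv : OfUv := by
  intro ab O z hO hOc hY hH h0
  set Z : Set P := {x | ∃ ε : ℝ, 0 < ε ∧ ∀ t j, Van (Metric.ball x ε) (vl (z t) j)} with hZ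
  have oZ : IsOpen Z := by
    refine Metric.isOpen_iff.2 fun x ⟨ε, hε, h⟩ => ⟨ε, hε, fun y hy => ?_⟩
    exact ⟨ε - dist y x, sub_pos.2 hy, fun t j =>
      (h t j).mono (Metric.ball_subset_ball' (by linarith))⟩
  have hsub : O ⊆ Z := by
    refine hOc.subset_of_closure_inter_subset oZ (h0.imp fun x hx => hx) ?_
    rintro x ⟨hxc, hxO⟩
    obtain ⟨N, hN, hxN, M, W, D, F, hM, hW, hV⟩ := hH x hxO
    obtain ⟨ε, hε, hεN⟩ := Metric.isOpen_iff.1 hN x hxN
    obtain ⟨c, ⟨r, hr, hc⟩, hcx⟩ := Metric.mem_closure_iff.1 hxc (ε / 8) (by positivity)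
    have ind : ∀ n : ℕ, ∀ s : ℝ, 0 < s → s ≤ (ε / 2) ^ 2 → s ≤ r ^ 2 * (22 / 21) ^ n →
        ∀ t j, Van (Dc c s) (vl (z t) j) := by
      intro n
      induction n with
      | zero =>
        intro s _ _ h t j
        exact (hc t j).mono fun y hy =>
          Uc.dist_lt (z := (0, y)) hr.le (lt_of_lt_of_le hy (by simpa using h))
      | succ n ih =>
        intro s hs h1 h2 t j
        have := Uv.step ab c (s / (11 / 10)) M N z W D F (by positivity) hM hN hW hY
          (fun y hy => ?_) hV (ih _ (by positivity) (by linarith) ?_) t j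
        · rwa [show 11 / 10 * (s / (11 / 10)) = s by ring] at this
        · refine hεN ?_
          have hy' : qq c (0, y) < 3 / 2 * (s / (11 / 10)) := hy
          have : dist y c < 3 / 4 * ε := Uc.dist_lt (z := (0, y)) (by positivity) (by nlinarith)
          rw [Metric.mem_ball]
          linarith [dist_triangle y c x, dist_comm x c]
        · rw [pow_succ (22 / 21 : ℝ) n] at h2
          linarith
    obtain ⟨n, hn⟩ := pow_unbounded_of_one_lt ((ε / 2) ^ 2 / r ^ 2)
      (by norm_num : (1 : ℝ) < 22 / 21)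
    rw [div_lt_iff₀ (by positivity)] at hn
    refine ⟨ε / 8, by positivity, fun t j =>
      (ind n _ (by positivity) le_rfl (by linarith) t j).mono fun y hy => ?_⟩
    have : dist y c < ε / 4 := by
      rw [Metric.mem_ball] at hy
      linarith [dist_triangle y x c]
    have := Uc.qq_lt 0 this
    change qq c (0, y) < (ε / 2) ^ 2
    nlinarith
  intro t j
  refine Van.of_loc fun x hx => ?_
  obtain ⟨ε, hε, h⟩ := hsub hx
  exact ⟨_, Metric.ball_mem_nhds x hε, h t j⟩

end Pool.Agent.MP_ed9623_an.E16
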