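import Pool.Agent.MP_ed9623_an.E16.Spec

/-! The Dirichlet form and the trilinear form in terms of the curl. -/

open MeasureTheory Filter Topology Set
open scoped ContDiff

namespace Pool.Agent.MP_ed9623_an.E16

open H64 H77

theorem rowVo : VoS := by
  intro N u du q hN hu hq θ hθ
  have m := fun j => (hu.h1 j).m
  have md := fun j i => (hu.h1 j).md i
  have mq := fun j i l => (hq j i l).1
  have w : ∀ j i, WD N (ee i) (u j) (du j i) := fun j i φ hφ => by
    have := (hu.h1 j).w i φ hφ.top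
    rwa [dd_zero] at this
  have sy : ∀ᵐ p, p ∈ N → ∀ j i l, q j i l p = q j l i p := by
    have : ∀ j i l, ∀ᵐ p, p ∈ N → q j i l p = q j l i p := fun j i l =>
      ((w j l).comm (w j i) (hq j i l).2).uniq hN (hq j l i).2 (mq _ _ _) (mq _ _ _)
    filter_upwards [ae_all_iff.2 fun j => ae_all_iff.2 fun i => ae_all_iff.2 fun l => this j i l]
      with p a hp j i l using a j i l hp
  have dv : ∀ l, Van N fun p => q 0 0 l p + q 1 1 l p := fun l =>
    ((hq 0 0 l).2.add (hq 1 1 l).2 (md _ _) (mq _ _ _) (md _ _) (mq _ _ _)).van hN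
      ((mq _ _ _).add (mq _ _ _)) (hu.dv.mono fun _ a _ => a)
  have p0 : perp (fun _ => 0) θ 0 = fun p => -pd (ee 1) θ p := rfl
  have p1 : perp (fun _ => 0) θ 1 = pd (ee 0) θ := dd_zero 0 θ
  refine ⟨?_, ?_, ?_, ?_⟩
  · have a : ∀ i, (∫ x, du 0 i x * pd (ee i) (fun p => -pd (ee 1) θ p) x)
        + ∫ x, du 1 i x * pd (ee i) (pd (ee 0) θ) x = -∫ x, cq q i x * pd (ee i) θ x := fun i => by
      have t := hθ.pd (ee i)
      have e : pd (ee i) (fun p => -pd (ee 1) θ p) = fun p => -pd (ee 1) (pd (ee i) θ) p := by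
        rw [pd_comm_sm hθ.1 (ee 1)]
        generalize pd (ee 1) θ = f
        funext p
        simp only [pd, fderiv_fun_neg, neg_apply]
      rw [e, pd_comm_sm hθ.1 (ee i)]
      simp only [mul_neg, integral_neg]
      rw [(hq 0 i 1).2 _ t, (hq 1 i 0).2 _ t, int_test_congr (f := cq q i)
        (g := fun x => q 1 i 0 x - q 0 i 1 x) (fun _ => t.off)
        (sy.mono fun p b hp => by rw [cq, b hp 1 0 i, b hp 0 1 i])]
      simp only [sub_mul]
      rw [integral_sub ((mq _ _ _).int_mul t.m2) ((mq _ _ _).int_mul t.m2)]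
      ring
    simp only [di, dd_zero, Fin.sum_univ_two, p0, p1]
    linarith [a 0, a 1]
  · rw [wPrd.2 _ u u _ du du Gam.zero hu hu.h1 (hθ.top.perp Gam.zero)]
    have i1 : ∀ {f g φ : P → ℝ}, M2 f → M2 g → Test N φ → Integrable fun x => f x * g x * φ x :=
      fun hf hg hφ => (hf.int_mul (hg.tmul hφ)).congr (ae_of_all _ fun x => by ring)
    have a : ∀ i j l, ∫ x, u i x * du j i x * pd (ee l) θ x =
        -((∫ x, du i l x * du j i x * θ x) + ∫ x, u i x * q j i l x * θ x) := fun i j l => by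
      rw [wPrd.1 N _ _ _ _ _ hN (m i) (md i l) (md j i) (mq j i l) (w i l) (hq j i l).2 θ hθ,
        ← integral_add (i1 (md _ _) (md _ _) hθ) (i1 (m _) (mq _ _ _) hθ)]
      simp only [add_mul]
    have b : ∀ i, ∫ x, u i x * cq q i x * θ x =
        (∫ x, u i x * q 1 i 0 x * θ x) - ∫ x, u i x * q 0 i 1 x * θ x := fun i => by
      rw [← integral_sub (i1 (m _) (mq _ _ _) hθ) (i1 (m _) (mq _ _ _) hθ),
        int_test_congr (f := fun x => u i x * cq q i x)
          (g := fun x => u i x * q 1 i 0 x - u i x * q 0 i 1 x) (fun _ => hθ.off)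
          (sy.mono fun p b hp => by rw [cq, b hp 1 0 i, b hp 0 1 i, mul_sub])]
      simp only [sub_mul]
    have c : ∀ f : P → ℝ, M2 f → (∫ x, du 0 0 x * f x * θ x) + ∫ x, du 1 1 x * f x * θ x = 0 :=
      fun f hf => by
        rw [← integral_add (i1 (md _ _) hf hθ) (i1 (md _ _) hf hθ)]
        refine integral_eq_zero_of_ae (hu.dv.mono fun x h => ?_)
        simp only [← add_mul, h, zero_mul, Pi.zero_apply]
    have c1 := c _ (md 1 0)
    have c2 := c _ (md 0 1)
    simp only [mul_comm (du 1 1 _) (du 1 0 _)] at c1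
    simp only [mul_comm (du 0 0 _) (du 0 1 _)] at c2
    simp only [ip, Fin.sum_univ_two, p0, p1, mul_neg, integral_neg, b]
    simp only [add_mul]
    rw [integral_add (i1 (m _) (md _ _) (hθ.pd _)) (i1 (m _) (md _ _) (hθ.pd _)),
      integral_add (i1 (m _) (md _ _) (hθ.pd _)) (i1 (m _) (md _ _) (hθ.pd _)), a, a, a, a]
    linarith
  · rw [Fin.sum_univ_two, (hq 0 0 0).2 θ hθ, (hq 0 1 1).2 θ hθ, ← neg_add,
      ← integral_add ((mq _ _ _).int_mul hθ.m2) ((mq _ _ _).int_mul hθ.m2), ← integral_neg,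
      int_test_congr (f := cq q 1) (g := fun x => -(q 0 0 0 x + q 0 1 1 x)) (fun _ => hθ.off) (by
        filter_upwards [sy, dv 0] with p a b hp
        rw [cq, a hp 1 0 1]; linarith [b hp])]
    simp only [neg_mul, add_mul]
  · rw [Fin.sum_univ_two, (hq 1 0 0).2 θ hθ, (hq 1 1 1).2 θ hθ, ← neg_add,
      ← integral_add ((mq _ _ _).int_mul hθ.m2) ((mq _ _ _).int_mul hθ.m2), ← integral_neg,
      int_test_congr (f := fun x => -cq q 0 x) (g := fun x => -(q 1 0 0 x + q 1 1 1 x))
        (fun _ => hθ.off) (by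
        filter_upwards [sy, dv 1] with p a b hp
        rw [cq, a hp 0 1 0]; linarith [b hp])]
    simp only [neg_mul, add_mul]

end Pool.Agent.MP_ed9623_an.E16
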