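import Pool.Agent.MP_ed9623_an.E16.Spec

/-! The system solved by the difference of two solutions. -/

open MeasureTheory Filter Topology Set
open scoped ContDiff

namespace Pool.Agent.MP_ed9623_an.E16

open H64 H77

namespace VtA

theorem norm_le {v : E6} {R : ℝ} (h : Nb R (vl v) (gj v)) : ‖v‖ ≤ 3 * R := by
  have R0 : 0 ≤ R := (nm_nonneg _).trans (h 0).1
  have a : ∀ ix : Ix, ‖v ix‖ ^ 2 ≤ R ^ 2 := fun ⟨j, o⟩ => pow_le_pow_left₀ (norm_nonneg _) (by
    rw [← nm_coe]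
    cases o
    exacts [(h j).1, (h j).2 _]) 2
  rw [PiLp.norm_eq_of_L2, Real.sqrt_le_iff]
  refine ⟨by positivity, (Finset.sum_le_card_nsmul _ _ _ fun ix _ => a ix).trans ?_⟩
  simp only [Finset.card_univ, Fintype.card_prod, Fintype.card_option, Fintype.card_fin,
    nsmul_eq_mul]
  push_cast
  nlinarith [sq_nonneg R]

/-- The curl of a jet. -/
noncomputable def cu (v : E6) : P → ℝ := fun p => gj v 1 0 p - gj v 0 1 p

theorem m2_cu (v : E6) : M2 (cu v) := (m2_gj _ _ _).sub (m2_gj _ _ _)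

theorem cu_sub (v v' : E6) : ∀ᵐ p, cu (v - v') p = cu v p - cu v' p := by
  filter_upwards [co_sub v v' (1, some 0), co_sub v v' (0, some 1)] with p a b
  simp only [cu, gj, a, b]
  ring

/-- The data of one solution at a fixed time. -/
structure One (B : Set P) (C : ℝ) (v : E6) (q : Fin 2 → Fin 2 → Fin 2 → P → ℝ) : Prop where
  vz : VF (fun _ => 0) (vl v) (gj v)
  bd : ∀ j, ∀ᵐ p, p ∈ B → |vl v j p| ≤ C
  q2 : ∀ j i l, M2 (q j i l) ∧ nm (q j i l) ≤ C ∧ WD B (ee l) (gj v j i) (q j i l)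

variable {B N : Set P} {C R Cm : ℝ} {v v' vt vt' : E6} {q q' : Fin 2 → Fin 2 → Fin 2 → P → ℝ}
  {g : Fin 2 → P → ℝ} {m : P → ℝ}

theorem One.mq (h : One B C v q) (l : Fin 2) : M2 (cq q l) := (h.q2 _ _ _).1.sub (h.q2 _ _ _).1

theorem One.n (h : One B C v q) (l : Fin 2) : nm (cq q l) ≤ 2 * C :=
  (nm_sub_le (h.q2 _ _ _).1 (h.q2 _ _ _).1).trans (by
    linarith [(h.q2 1 0 l).2.1, (h.q2 0 1 l).2.1])

theorem One.w (h : One B C v q) (l : Fin 2) : WD B (ee l) (cu v) (cq q l) :=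
  (h.q2 _ _ _).2.2.sub (h.q2 _ _ _).2.2 (m2_gj _ _ _) (h.q2 _ _ _).1 (m2_gj _ _ _) (h.q2 _ _ _).1

theorem One.eq (hV : VoS) (h : One B C v q) (hN : IsOpen N) (hB : N ⊆ B) (hg : ∀ j, M2 (g j))
    (ht : vt ∈ YZ univ) {θ : P → ℝ} (hθ : Test N θ)
    (he : E2 (fun _ => 0) 1 (vl v) (gj v) (fun j p => g j p - vl vt j p) θ) :
    (∫ x, cu vt x * θ x) + ∑ l, ∫ x, cq q l x * pd (ee l) θ x
      = -(∑ l, ∫ x, vl v l x * cq q l x * θ x) - ip g (perp (fun _ => 0) θ) := by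
  obtain ⟨a, b, -⟩ := hV N _ _ q hN h.vz (fun j i l => ⟨(h.q2 j i l).1, (h.q2 j i l).2.2.mono hB⟩)
    θ hθ
  rw [E2, a, b, Cv.ip_sub hg (m2_vl _) (fun j => (hθ.perp Gam.zero j).m2),
    ip_perp ht.1 hθ.top] at he
  unfold cu
  linarith

theorem main (hV : VoS) (h : One B C v q) (h' : One B C v' q') (hN : IsOpen N) (hB : N ⊆ B)
    (hg : ∀ j, M2 (g j)) (ht : vt ∈ YZ univ) (ht' : vt' ∈ YZ univ) (C0 : 0 ≤ C) (m0 : 0 ≤ Cm)
    (nb : Nb R (vl v) (gj v)) (nb' : Nb R (vl v') (gj v'))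
    (he : ∀ θ, Test N θ → E2 (fun _ => 0) 1 (vl v) (gj v) (fun j p => g j p - vl vt j p) θ)
    (he' : ∀ θ, Test N θ → E2 (fun _ => 0) 1 (vl v') (gj v') (fun j p => g j p - vl vt' j p) θ)
    (hm : Test B m) (m1 : ∀ p, |m p| ≤ 1) (m2 : ∀ i p, |pd (ee i) m p| ≤ Cm)
    (m3 : ∀ p ∈ N, m p = 1 ∧ ∀ i, pd (ee i) m p = 0) {A : E6 →L[ℝ] L}
    (hA : ∀ y, A y =ᵐ[volume] fun p => m p * cu y p) :
    ∃ D F, Vt N (6 * R + 4 * C + 4 * Cm * R + 16 * C ^ 2) (v - v') (A (v - v')) (A (vt - vt'))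
      D F := by
  have R0 : 0 ≤ R := (nm_nonneg _).trans (nb 0).1
  have p1 : 0 ≤ Cm * R := mul_nonneg m0 R0
  have p2 := sq_nonneg C
  have md : ∀ l, M2 fun p => cq q l p - cq q' l p := fun l => (h.mq l).sub (h'.mq l)
  have nd : ∀ l, nm (fun p => cq q l p - cq q' l p) ≤ 4 * C := fun l =>
    (nm_sub_le (h.mq l) (h'.mq l)).trans (by linarith [h.n l, h'.n l])
  have nc : nm (cu (v - v')) ≤ 4 * R := by
    rw [nm_congr (cu_sub v v')]
    linarith [nm_sub_le (m2_cu v) (m2_cu v'), nm_sub_le (m2_gj v 1 0) (m2_gj v 0 1),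
      nm_sub_le (m2_gj v' 1 0) (m2_gj v' 0 1), (nb 1).2 0, (nb 0).2 1, (nb' 1).2 0, (nb' 0).2 1,
      show nm (cu v) = nm fun p => gj v 1 0 p - gj v 0 1 p from rfl,
      show nm (cu v') = nm fun p => gj v' 1 0 p - gj v' 0 1 p from rfl]
  have wd : ∀ l, WD B (ee l) (cu (v - v')) fun p => cq q l p - cq q' l p := fun l =>
    ((h.w l).sub (h'.w l) (m2_cu _) (h.mq l) (m2_cu _) (h'.mq l)).congr
      ((cu_sub v v').mono fun p a _ => a.symm) (Eventually.of_forall fun _ _ => rfl)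
  have mD : ∀ l, M2 fun p => m p * (cq q l p - cq q' l p) + pd (ee l) m p * cu (v - v') p :=
    fun l => ((md l).tmul hm).add ((m2_cu _).tmul (hm.pd _))
  have eD : ∀ l, ∀ᵐ p, p ∈ N → (MemLp.toLp _ (mD l) : L) p = cq q l p - cq q' l p := fun l => by
    filter_upwards [(mD l).coeFn_toLp] with p a hp
    rw [a, (m3 p hp).1, (m3 p hp).2, one_mul, zero_mul, add_zero]
  have mN := hN.measurableSet
  have b1 : ∀ l, ∀ᵐ p, |N.indicator (vl v l) p| ≤ C := fun l => (h.bd l).mono fun p a => by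
    by_cases hp : p ∈ N
    · rw [indicator_of_mem hp]; exact a (hB hp)
    · rw [indicator_of_notMem hp, abs_zero]; exact C0
  have ez : ∀ l, ∀ᵐ p, vl (v - v') l p = vl v l p - vl v' l p := fun l => co_sub v v' (l, none)
  have b2 : ∀ l, ∀ᵐ p, |N.indicator (vl (v - v') l) p| ≤ 2 * C := fun l => by
    filter_upwards [h.bd l, h'.bd l, ez l] with p a b e
    by_cases hp : p ∈ N
    · rw [indicator_of_mem hp, e]
      linarith [abs_sub (vl v l p) (vl v' l p), a (hB hp), b (hB hp)]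
    · rw [indicator_of_notMem hp, abs_zero]; positivity
  have f1 := fun l => (md l).bmul ((m2_vl v l).ind mN).meas (b1 l)
  have f2 := fun l => (h'.mq l).bmul ((m2_vl (v - v') l).ind mN).meas (b2 l)
  have sp : ∀ {φ : P → ℝ}, M2 φ → (∀ x, x ∉ N → φ x = 0) → ∀ l,
      ∫ x, (MemLp.toLp _ (mD l) : L) x * φ x
      = (∫ x, cq q l x * φ x) - ∫ x, cq q' l x * φ x := fun a b l => by
    rw [int_test_congr b (eD l), ← integral_sub ((h.mq l).int_mul a) ((h'.mq l).int_mul a)]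
    simp only [sub_mul]
  have sg : ∀ {φ : P → ℝ}, M2 φ → ∀ j i, ∫ x, gj (v - v') j i x * φ x
      = (∫ x, gj v j i x * φ x) - ∫ x, gj v' j i x * φ x := fun a j i => by
    rw [← integral_sub ((m2_gj _ _ _).int_mul a) ((m2_gj _ _ _).int_mul a)]
    exact integral_congr_ae ((co_sub v v' (j, some i)).mono fun p b => by
      simp only [gj, b, sub_mul])
  have vo := fun θ hθ => (hV N _ _ q hN h.vz
    (fun j i l => ⟨(h.q2 j i l).1, (h.q2 j i l).2.2.mono hB⟩) θ hθ).2.2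
  have vo' := fun θ hθ => (hV N _ _ q' hN h'.vz
    (fun j i l => ⟨(h'.q2 j i l).1, (h'.q2 j i l).2.2.mono hB⟩) θ hθ).2.2
  refine ⟨fun l => MemLp.toLp _ (mD l), fun p =>
    -((N.indicator (vl v 0) p * (cq q 0 p - cq q' 0 p)
      + N.indicator (vl v 1) p * (cq q 1 p - cq q' 1 p))
      + (N.indicator (vl (v - v') 0) p * cq q' 0 p + N.indicator (vl (v - v') 1) p * cq q' 1 p)),
    fun l => ?_, ⟨?_, ?_, fun l => ?_⟩, ⟨(((f1 0).add (f1 1)).add ((f2 0).add (f2 1))).neg, ?_⟩, ?_,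
    fun φ hφ => ?_, fun φ hφ => ?_, fun φ hφ => ?_, fun ψ S hψ S0 hS => ?_⟩
  · exact ((wd l).cut (m2_cu _) (md l) hm).congr ((hA _).mono fun p a _ => a.symm)
      ((mD l).coeFn_toLp.mono fun p a _ => a.symm)
  · linarith [norm_sub_le v v', norm_le nb, norm_le nb']
  · rw [← nm_coe, nm_congr (hA _)]
    linarith [nm_bmul (m2_cu (v - v')) zero_le_one (Eventually.of_forall m1)]
  · rw [nm_toLp]
    have := mul_le_mul_of_nonneg_left nc m0
    linarith [nm_add_le ((md l).tmul hm) ((m2_cu (v - v')).tmul (hm.pd (ee l))), nd l,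
      nm_bmul (md l) zero_le_one (Eventually.of_forall m1),
      nm_bmul (m2_cu (v - v')) m0 (Eventually.of_forall (m2 l))]
  · have a := fun l => (nm_bmul (md l) C0 (b1 l)).trans (mul_le_mul_of_nonneg_left (nd l) C0)
    have b := fun l => (nm_bmul (h'.mq l) (by positivity) (b2 l)).trans
      (mul_le_mul_of_nonneg_left (h'.n l) (by positivity))
    rw [nm_neg]
    linarith [nm_add_le ((f1 0).add (f1 1)) ((f2 0).add (f2 1)), nm_add_le (f1 0) (f1 1),
      nm_add_le (f2 0) (f2 1), a 0, a 1, b 0, b 1]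
  · filter_upwards [hA (v - v')] with p a hp
    rw [a, (m3 p hp).1, one_mul, cu]
  · have a := h.eq hV hN hB hg ht hφ (he φ hφ)
    have b := h'.eq hV hN hB hg ht' hφ (he' φ hφ)
    have i := fun l => int_mul3 (m2_vl v l) (h.mq l) hφ
    have i' := fun l => int_mul3 (m2_vl v' l) (h'.mq l) hφ
    have c : ∫ x, A (vt - vt') x * φ x = (∫ x, cu vt x * φ x) - ∫ x, cu vt' x * φ x := by
      rw [← integral_sub ((m2_cu _).int_mul hφ.m2) ((m2_cu _).int_mul hφ.m2)]
      simp only [← sub_mul]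
      refine int_test_congr (fun _ => hφ.off) ?_
      filter_upwards [hA (vt - vt'), cu_sub vt vt'] with p a b hp
      rw [a, (m3 p hp).1, one_mul, b]
    simp only [Fin.sum_univ_two, sp (hφ.pd _).m2 fun _ => (hφ.pd _).off] at a b ⊢
    rw [c]
    refine Eq.trans ?_ (int_test_congr (f := fun p => vl v' 0 p * cq q' 0 p + vl v' 1 p * cq q' 1 p
      - (vl v 0 p * cq q 0 p + vl v 1 p * cq q 1 p)) (fun _ => hφ.off) (by
        filter_upwards [ez 0, ez 1] with p e e' hp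
        simp only [indicator_of_mem hp, e, e']
        ring))
    simp only [sub_mul, add_mul]
    rw [integral_sub ((i' 0).fun_add (i' 1)) ((i 0).fun_add (i 1)), integral_add (i' 0) (i' 1),
      integral_add (i 0) (i 1)]
    linarith
  · have a := (vo φ hφ).1
    have b := (vo' φ hφ).1
    simp only [Fin.sum_univ_two, sg (hφ.pd _).m2, sp hφ.m2 fun _ => hφ.off] at a b ⊢
    linarith
  · have a := (vo φ hφ).2
    have b := (vo' φ hφ).2
    simp only [Fin.sum_univ_two, sg (hφ.pd _).m2, neg_mul, integral_neg,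
      sp hφ.m2 fun _ => hφ.off] at a b ⊢
    linarith
  · have k := fun l => (M2.coe (MemLp.toLp _ (mD l) : L)).tmul hψ
    have a : ∀ l, nm (fun x => ψ x * (N.indicator (vl v l) x * (cq q l x - cq q' l x)))
        ≤ C * nm fun x => ψ x * (MemLp.toLp _ (mD l) : L) x := fun l => by
      refine Rc2.nm_le (k l) C0 ?_
      filter_upwards [b1 l, eD l] with p a b
      by_cases hp : p ∈ N
      · rw [b hp, mul_left_comm, abs_mul]
        exact mul_le_mul_of_nonneg_right a (abs_nonneg _)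
      · simp [hψ.off hp]
    have b : ∀ l, nm (fun x => ψ x * (N.indicator (vl (v - v') l) x * cq q' l x))
        ≤ S * (2 * C) := fun l => by
      refine (Rc2.nm_le (h'.mq l) S0 ?_).trans (mul_le_mul_of_nonneg_left (h'.n l) S0)
      filter_upwards [hS l] with p a
      by_cases hp : p ∈ N
      · rw [indicator_of_mem hp, ← mul_assoc, abs_mul]
        exact mul_le_mul_of_nonneg_right a (abs_nonneg _)
      · rw [hψ.off hp, zero_mul, abs_zero]; positivity
    have g1 := fun l => (f1 l).tmul hψ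
    have g2 := fun l => (f2 l).tmul hψ
    have n := fun l => nm_nonneg fun x => ψ x * (MemLp.toLp _ (mD l) : L) x
    simp only [mul_neg, mul_add (ψ _), Fin.sum_univ_two]
    rw [nm_neg]
    have u := mul_nonneg (show 0 ≤ 6 * R + 4 * Cm * R + 16 * C ^ 2 by positivity)
      (add_nonneg (add_nonneg (n 0) (n 1)) S0)
    linarith [nm_add_le ((g1 0).add (g1 1)) ((g2 0).add (g2 1)), nm_add_le (g1 0) (g1 1),
      nm_add_le (g2 0) (g2 1), a 0, a 1, b 0, b 1, mul_nonneg C0 (n 0), mul_nonneg C0 (n 1)]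

end VtA

open VtA in
theorem rowVt : OfVt := by
  intro hR hV Ω g R U U' hΩ hg hU hU' s s' x hx
  obtain ⟨r, C, r0, C0, hr, hR⟩ := hR Ω x R hΩ hx
  obtain ⟨m, hm, m01, m1⟩ := exists_cut (isCompact_closedBall x (r / 2)) Metric.isOpen_ball
    (Metric.closedBall_subset_ball (half_lt_self r0))
  choose c c0 hc using fun i => (hm.pd (ee i)).bd
  obtain ⟨T, hT⟩ := exists_mul hm.top
  obtain ⟨A, hA⟩ : ∃ A : E6 →L[ℝ] L, ∀ y, A y =ᵐ[volume] fun p => m p * cu y p := by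
    refine ⟨T ∘L ((PiLp.proj 2 (fun _ : Ix => L) (1, some 0) : E6 →L[ℝ] L)
      - (PiLp.proj 2 (fun _ : Ix => L) (0, some 1) : E6 →L[ℝ] L)), fun y => ?_⟩
    exact (hT (y (1, some 0) - y (0, some 1))).trans (EventuallyEq.rfl.mul (Lp.coeFn_sub _ _))
  have sub := Metric.ball_subset_ball (x := x) (half_le_self r0.le)
  have yz : ∀ {U : ℝ → E6}, (∀ t, U t ∈ VZ Ω) → ∀ t, deriv U t ∈ YZ univ := fun h t =>
    ⟨(deriv_mem (isClosed_VZ Ω) (Eventually.of_forall h)).1.1,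
      fun _ => Eventually.of_forall fun p hp => absurd trivial hp⟩
  have k : ∀ t, ∃ D F, Vt (Metric.ball x (r / 2))
      (6 * R + 4 * C + 4 * (c 0 + c 1) * R + 16 * C ^ 2) (U t - U' t) (A (U t - U' t))
      (A (deriv U t - deriv U' t)) D F := fun t => by
    obtain ⟨b, q, hq⟩ := hR _ _ _ (s.2 t)
    obtain ⟨b', q', hq'⟩ := hR _ _ _ (s'.2 t)
    exact main (Cm := c 0 + c 1) hV ⟨(s.2 t).vf, b, hq⟩ ⟨(s'.2 t).vf, b', hq'⟩ Metric.isOpen_ball
      sub hg (yz hU t) (yz hU' t) C0 (add_nonneg (c0 0) (c0 1)) (s.2 t).nb (s'.2 t).nb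
      (fun θ h => (s.2 t).eq θ (h.mono (sub.trans hr)))
      (fun θ h => (s'.2 t).eq θ (h.mono (sub.trans hr))) hm
      (fun p => by rw [abs_of_nonneg (m01 p).1]; exact (m01 p).2)
      (Fin.forall_fin_two.2 ⟨fun p => by linarith [hc 0 p, c0 1],
        fun p => by linarith [hc 1 p, c0 0]⟩)
      (fun p hp => by
        have e : m =ᶠ[𝓝 p] fun _ => 1 :=
          m1.filter_mono (nhds_le_nhdsSet (Metric.ball_subset_closedBall hp))
        exact ⟨e.eq_of_nhds, fun i => by rw [pd_congr_pt _ e, pd_const]⟩) hA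
  choose D F hD using k
  have R0 : 0 ≤ R := (nm_nonneg _).trans ((s.2 0).nb 0).1
  have := c0 0
  have := c0 1
  refine ⟨_, Metric.isOpen_ball, Metric.mem_ball_self (half_pos r0),
    6 * R + 4 * C + 4 * (c 0 + c 1) * R + 16 * C ^ 2, fun t => A (U t - U' t),
    fun i t => D t i, F, by positivity, A.contDiff.comp (s.1.sub s'.1), fun t => ?_⟩
  rw [deriv_clm A (s.1.sub s'.1)]
  simp only [((sm_hasDerivAt s.1 t).fun_sub (sm_hasDerivAt s'.1 t)).deriv]
  exact hD t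

end Pool.Agent.MP_ed9623_an.E16
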