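import Pool.Agent.MP_ed9623_an.E13.El
import Pool.Agent.MP_ed9623_an.E16.Ab
import Pool.Agent.MP_ed9623_an.E16.Geo
import Pool.Agent.MP_ed9623_an.E16.Key
import Pool.Agent.MP_ed9623_an.E16.Per
import Pool.Agent.MP_ed9623_an.E16.RcB
import Pool.Agent.MP_ed9623_an.E16.Rg
import Pool.Agent.MP_ed9623_an.E16.St
import Pool.Agent.MP_ed9623_an.E16.Uv
import Pool.Agent.MP_ed9623_an.E16.Vo
import Pool.Agent.MP_ed9623_an.E16.Vt
import Pool.Agent.MP_ed9623_an.E63.Spec

/-! Two complete bounded solutions with the same pressure coincide or are steady. -/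

namespace Pool.Agent.MP_ed9623_an.E16

theorem allSt : StS := rowSt (rowUv (rowAb E13.elS rowRcB)) (rowVt rowRg rowVo)

theorem allKey : KeyS := rowKey allSt rowPer2 rowGeo2

theorem key63 : E63.KeyS := fun ρ g R a w h1 h2 h3 h4 h5 h6 h7 h8 =>
  or_assoc.1 ((allKey ρ h1 h2 h3 h4 g R a w h5 h6 h7 h8).imp_right fun h t => by
    rw [show a = fun _ => a 0 from funext fun t => (h t).1,
      show w = fun _ => w 0 from funext fun t => (h t).2]
    exact ⟨deriv_const _ _, deriv_const _ _⟩)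

end Pool.Agent.MP_ed9623_an.E16
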