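import Pool.Agent.MP_ed9623_an.H77.DefsX

/-! Equilibria. -/

open MeasureTheory

namespace Pool.Agent.MP_ed9623_an.E16

open H77

/-- `u` is a weak stationary solution: `u ∈ V`, tested with divergence-free fields. -/
def Eqm (Ω : Set (ℝ × ℝ)) (g u : Fin 2 → L2 Ω) : Prop :=
  (∃ G, InV Ω u G) ∧ ∀ φ, Sole Ω φ → rhs Ω g u 0 φ = 0

/-- Two equilibria with the same pressure gradient coincide. -/
def PInj (Ω : Set (ℝ × ℝ)) (g : Fin 2 → L2 Ω) : Prop :=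
  ∀ u v, Eqm Ω g u → Eqm Ω g v →
    (∀ φ : Fin 2 → ℝ × ℝ → ℝ, (∀ i, Test Ω (φ i)) → rhs Ω g u 0 φ = rhs Ω g v 0 φ) → u = v

end Pool.Agent.MP_ed9623_an.E16
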