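import Pool.Agent.MP_ed9623_an.E16.Spec

/-! The elliptic Carleman estimate. -/

open MeasureTheory Filter Topology Set
open scoped ContDiff

namespace Pool.Agent.MP_ed9623_an.E16

open H64 H77

namespace Ec

variable {η : ℝ → ℝ} {g : P → ℝ}

theorem pd_pr (hη : ContDiff ℝ ∞ η) (hg : ContDiff ℝ ∞ g) (a : ℝ) (e : P) (z : ST) :
    pd ((a, e) : ST) (fun z : ST => η z.1 * g z.2) z
      = a * deriv η z.1 * g z.2 + η z.1 * pd e g z.2 := by
  have h1 := ((hη.differentiable (by simp) z.1).hasDerivAt.hasFDerivAt.comp z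
    (hasFDerivAt_fst (𝕜 := ℝ) (p := z)))
  have h2 := ((hg.differentiable (by simp) z.2).hasFDerivAt.comp z
    (hasFDerivAt_snd (𝕜 := ℝ) (p := z)))
  have h : HasFDerivAt (fun z : ST => η z.1 * g z.2) _ z := h1.mul h2
  unfold pd
  rw [h.fderiv]
  simp
  ring

theorem pd_x (hη : ContDiff ℝ ∞ η) (hg : ContDiff ℝ ∞ g) (e : P) :
    pd ((0, e) : ST) (fun z : ST => η z.1 * g z.2) = fun z => η z.1 * pd e g z.2 :=
  funext fun z => by rw [pd_pr hη hg]; ring

theorem pd_t (hη : ContDiff ℝ ∞ η) (hg : ContDiff ℝ ∞ g) (z : ST) :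
    pd e0 (fun z : ST => η z.1 * g z.2) z = deriv η z.1 * g z.2 := by
  have := pd_pr hη hg 1 0 z
  rw [show pd (0 : P) g z.2 = 0 from map_zero _] at this
  exact this.trans (by ring)

theorem Lh_pr (hη : ContDiff ℝ ∞ η) (hg : ContDiff ℝ ∞ g) (z : ST) :
    Lh (fun z : ST => η z.1 * g z.2) z = η z.1 * lp g z.2 - deriv η z.1 * g z.2 := by
  have a := fun i => pd_x hη hg (ee i)
  have b := fun i => congrFun (pd_x hη (H77.sm_pd hg (ee i)) (ee i)) z
  have q4 : e1 = ((0, ee 0) : ST) := rfl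
  have q5 : e2 = ((0, ee 1) : ST) := rfl
  rw [Lh, pd_t hη hg, q4, q5, a, a, b, b, lp]
  ring

theorem gr_pr (hη : ContDiff ℝ ∞ η) (hg : ContDiff ℝ ∞ g) (z : ST) :
    gr (fun z : ST => η z.1 * g z.2) z
      = η z.1 ^ 2 * (pd (ee 0) g z.2 ^ 2 + pd (ee 1) g z.2 ^ 2) := by
  have q4 : e1 = ((0, ee 0) : ST) := rfl
  have q5 : e2 = ((0, ee 1) : ST) := rfl
  rw [gr, q4, q5, pd_x hη hg, pd_x hη hg]
  ring

theorem bump : ∃ η : ℝ → ℝ, ContDiff ℝ ∞ η ∧ HasCompactSupport η ∧ 0 < ∫ t, η t ^ 2 := by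
  let b : ContDiffBump (0 : ℝ) := ⟨1, 2, one_pos, one_lt_two⟩
  refine ⟨b, b.contDiff, b.hasCompactSupport, ?_⟩
  refine Continuous.integral_pos_of_hasCompactSupport_nonneg_nonzero (x := 0)
    (b.continuous.pow 2) ?_ (fun _ => sq_nonneg _) ?_
  · exact b.hasCompactSupport.comp_left (g := fun y : ℝ => y ^ 2) (by simp)
  · rw [b.one_of_mem_closedBall (Metric.mem_closedBall_self b.rIn_pos.le)]
    norm_num

theorem isq {a : ℝ → ℝ} (ha : Continuous a) (hc : HasCompactSupport a) :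
    Integrable fun t => a t ^ 2 := by
  have h1 : Continuous fun t => a t ^ 2 := by fun_prop
  have h2 : HasCompactSupport fun t => a t ^ 2 := hc.comp_left (g := fun y : ℝ => y ^ 2) (by simp)
  exact h1.integrable_of_hasCompactSupport h2

theorem prod_sq {a : ℝ → ℝ} {u : P → ℝ} (ha : Integrable fun t => a t ^ 2) (hu : M2 u) :
    Integrable (fun z : ST => a z.1 ^ 2 * u z.2 ^ 2) ∧
      ∫ z : ST, a z.1 ^ 2 * u z.2 ^ 2 = (∫ t, a t ^ 2) * nm u ^ 2 :=
  ⟨ha.mul_prod hu.int_sq, by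
    rw [nm_sq]
    exact integral_prod_mul (fun t => a t ^ 2) fun x => u x ^ 2⟩

end Ec

open Ec in
theorem rowEc : EcS := by
  intro c s hs
  obtain ⟨η, hη, hc, hA⟩ := bump
  have iA := isq hη.continuous hc
  have iB := isq (hη.continuous_deriv (by simp)) hc.deriv
  obtain ⟨A, eA⟩ : ∃ A, A = ∫ t, η t ^ 2 := ⟨_, rfl⟩
  obtain ⟨B, eB⟩ : ∃ B, B = ∫ t, deriv η t ^ 2 := ⟨_, rfl⟩
  have B0 : 0 ≤ B := eB ▸ integral_nonneg fun _ => sq_nonneg _
  rw [← eA] at hA
  filter_upwards [eventually_ge_atTop 1,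
    eventually_ge_atTop ((64 + 72 * s ^ 2 + 4 * B / A) / (3 * s ^ 4))] with τ t1 t2 g hg
  have τ0 : 0 ≤ τ := zero_le_one.trans t1
  have sf : ContDiff ℝ ∞ fun z : ST => η z.1 * g z.2 :=
    (hη.comp contDiff_fst).mul (hg.1.comp contDiff_snd)
  have ts : tsupport (fun z : ST => η z.1 * g z.2) ⊆ tsupport η ×ˢ tsupport g :=
    closure_minimal (fun z hz => ⟨subset_tsupport _ (left_ne_zero_of_mul hz),
      subset_tsupport _ (right_ne_zero_of_mul hz)⟩)
      ((isClosed_tsupport _).prod (isClosed_tsupport _))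
  have cf : HasCompactSupport fun z : ST => η z.1 * g z.2 :=
    (hc.isCompact.prod hg.2.1.isCompact).of_isClosed_subset (isClosed_tsupport _) ts
  have main := carleman_f c (β := 0) (t := 0) (K := 36 * s ^ 2) hs τ0 (contDiff_infty.1 sf 2) cf
    fun z hz => ⟨(hg.2.2 (ts hz).2).1.le, (hg.2.2 (ts hz).2).2.le, le_of_eq (by ring)⟩
  have eE : ∀ z : ST, Real.exp (τ * wt c s 0 0 z) = ew c s τ z.2 := fun z => by
    rw [H64.wt, zero_mul, sub_zero]; rfl
  have mw : ∀ {u : P → ℝ}, Test (An c s) u → M2 fun x => ew c s τ x * u x :=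
    fun hu => (hu.smul (sm_ew c s τ)).m2
  obtain ⟨i0, p0⟩ := prod_sq iA (mw hg)
  obtain ⟨i1, p1⟩ := prod_sq iA (mw (hg.pd (ee 0)))
  obtain ⟨i2, p2⟩ := prod_sq iA (mw (hg.pd (ee 1)))
  obtain ⟨i3, p3⟩ := prod_sq iA (mw hg.lp)
  obtain ⟨i4, p4⟩ := prod_sq iB (mw hg)
  rw [← eA] at p0 p1 p2 p3
  rw [← eB] at p4
  obtain ⟨κ, hκ⟩ : ∃ κ, κ = 4 * τ ^ 3 * s ^ 4 - 64 * τ - 2 * τ ^ 2 * (36 * s ^ 2) := ⟨_, rfl⟩
  rw [← hκ] at main
  have L := (integral_add ((i1.add i2).const_mul (τ * s / 4)) (i0.const_mul κ))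
  have R := (integral_add (i3.const_mul 4) (i4.const_mul 4))
  simp only [Pi.add_apply] at L
  rw [integral_const_mul, integral_const_mul, integral_add i1 i2, p0, p1, p2] at L
  rw [integral_const_mul, integral_const_mul, p3, p4] at R
  simp only [eE, gr_pr hη hg.1, Lh_pr hη hg.1] at main
  have k1 := integral_mono_of_nonneg (f := fun z : ST => ew c s τ z.2 ^ 2 *
      (2 * (η z.1 * lp g z.2 - deriv η z.1 * g z.2) ^ 2))
    (Eventually.of_forall fun z => by positivity) ((i3.const_mul 4).add (i4.const_mul 4))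
    (Eventually.of_forall fun z => by
      simp only [Pi.add_apply]
      nlinarith [sq_nonneg (ew c s τ z.2 * (η z.1 * lp g z.2 + deriv η z.1 * g z.2))])
  simp only [Pi.add_apply] at k1
  rw [R] at k1
  have key := le_of_eq_of_le (L.symm.trans (integral_congr_ae (Eventually.of_forall fun z => by
    ring))) (main.trans k1)
  rw [Fin.sum_univ_two]
  have s4 : 0 < 3 * s ^ 4 := by positivity
  rw [div_le_iff₀ s4] at t2
  have BA : 4 * B = 4 * B / A * A := by field_simp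
  have q0 : 0 ≤ 4 * B / A := by positivity
  have τ2 : 1 ≤ τ ^ 2 := one_le_pow₀ t1
  have hk : τ ^ 3 * s ^ 4 + 4 * B / A ≤ κ := by
    have a := mul_le_mul_of_nonneg_left t2 (sq_nonneg τ)
    have b : 4 * B / A ≤ τ ^ 2 * (4 * B / A) := le_mul_of_one_le_left q0 τ2
    have d : τ ≤ τ ^ 2 := by nlinarith
    rw [hκ]
    nlinarith
  have n0 := mul_le_mul_of_nonneg_left hk
    (mul_nonneg hA.le (sq_nonneg (nm fun x => ew c s τ x * g x)))
  refine le_of_mul_le_mul_left ?_ hA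
  rw [← mul_assoc 4 B, BA] at key
  linarith

end Pool.Agent.MP_ed9623_an.E16
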