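import Pool.Agent.MP_ed9623_an.E16.Spec

/-! The weighted pointwise bound for weak solutions. -/

open MeasureTheory Filter Topology Set
open scoped ContDiff

namespace Pool.Agent.MP_ed9623_an.E16

open H64 H77 H77.Dens

namespace El

theorem ae_sub {F : ℕ → P → ℝ} {g : P → ℝ} (h : Cv F g) :
    ∃ n : ℕ → ℕ, StrictMono n ∧ ∀ᵐ x, Tendsto (fun i => F (n i) x) atTop (𝓝 (g x)) := by
  have t : Tendsto (fun n => MemLp.toLp (F n) (h.m n)) atTop (𝓝 (MemLp.toLp g h.mg)) := by
    refine tendsto_iff_norm_sub_tendsto_zero.2 (h.lim.congr fun n => ?_)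
    rw [norm_sub_rev, ← nm_coe]
    refine nm_congr ?_
    filter_upwards [Lp.coeFn_sub (MemLp.toLp g h.mg) (MemLp.toLp (F n) (h.m n)),
      MemLp.coeFn_toLp h.mg, MemLp.coeFn_toLp (h.m n)] with x a b c
    rw [a, Pi.sub_apply, b, c]
  obtain ⟨n, hn, hx⟩ := (tendstoInMeasure_of_tendsto_Lp t).exists_seq_tendsto_ae
  refine ⟨n, hn, ?_⟩
  filter_upwards [hx, MemLp.coeFn_toLp h.mg,
    ae_all_iff.2 fun i => MemLp.coeFn_toLp (h.m i)] with x a b c
  simpa only [b, c] using a

theorem lp_mul {f g : P → ℝ} (hf : ContDiff ℝ ∞ f) (hg : ContDiff ℝ ∞ g) (x : P) :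
    lp (fun z => f z * g z) x = lp f x * g x
      + 2 * ∑ i, pd (ee i) f x * pd (ee i) g x + f x * lp g x := by
  have a : ∀ e, pd e (fun z => f z * g z) = fun z => pd e f z * g z + f z * pd e g z :=
    fun e => funext fun z => pd_mul e (sm_diff hf z) (sm_diff hg z)
  have b : ∀ e, pd e (pd e fun z => f z * g z) x = pd e (pd e f) x * g x + pd e f x * pd e g x
      + (pd e f x * pd e g x + f x * pd e (pd e g) x) := fun e => by
    rw [a, pd_add e (sm_diff ((H77.sm_pd hf e).mul hg) x) (sm_diff (hf.mul (H77.sm_pd hg e)) x),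
      pd_mul e (sm_diff (H77.sm_pd hf e) x) (sm_diff hg x),
      pd_mul e (sm_diff hf x) (sm_diff (H77.sm_pd hg e) x)]
  simp only [lp, b, Fin.sum_univ_two]
  ring

theorem tmul {F : ℕ → P → ℝ} {g m : P → ℝ} {O : Set P} (h : Cv F g) (hm : Test O m) :
    Cv (fun n p => m p * F n p) fun p => m p * g p := by
  obtain ⟨C, c0, hC⟩ := hm.bd
  exact Rc1.bmul h hm.ct c0 hC

end El

open El in
theorem rowEl : OfEl := by
  intro h0 c s hs
  obtain ⟨C, c0, hC⟩ := h0 c s hs
  refine ⟨C, c0, hC.mono fun τ hτ N χ z G d hN hχ hz hG hd hE => ?_⟩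
  have h1 : Mol1S := rowMol1
  have h2 : Mol2S := rowMol2
  obtain ⟨δ, δ0, hδ⟩ := hχ.2.1.isCompact.exists_thickening_subset_open hN
    (hχ.2.2.trans inter_subset_right)
  obtain ⟨k, e, hk, he, e1', -⟩ := kers h2 δ0
  have kt : ∀ n, Test univ (k n) := fun n => (hk n).test
  have sm : ∀ n, ContDiff ℝ ∞ (mol (k n) z) := fun n => ((h1 _ (kt n)).1 z hz).1
  have d1 : ∀ n i, pd (ee i) (mol (k n) z) = mol (k n) (d i) := fun n i =>
    funext fun x => pd_mol h1 hk hz (hd i).2 n x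
  have d2 : ∀ n i, pd (ee i) (pd (ee i) (mol (k n) z)) = mol (pd (ee i) (k n)) (d i) :=
    fun n i => by rw [d1, ((h1 _ (kt n)).1 _ (hd i).1).2]
  have d3 : ∀ n x, χ x * lp (mol (k n) z) x = -χ x * mol (k n) G x := fun n x => by
    by_cases hx : x ∈ tsupport χ
    · have q := hE _ (((kt n).refl x).mono fun y hy => hδ
        (Metric.mem_thickening_iff.2 ⟨x, hx, by
          rw [dist_comm, dist_eq_norm]
          exact (mem_ball_zero_iff.1 ((hk n).1.2.2 hy)).trans_le (e1' n)⟩))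
      simp only [pd_refl (kt n).1, mul_neg, integral_neg, Fin.sum_univ_two] at q
      rw [lp, d2, d2]
      simp only [mol]
      rw [← q]
      ring
    · rw [image_eq_zero_of_notMem_tsupport hx, neg_zero, zero_mul, zero_mul]
  have E := sm_ew c s τ
  have A0 : Cv (fun n x => ew c s τ x * (χ x * mol (k n) z x))
      fun x => ew c s τ x * (χ x * z x) :=
    (tmul (cv_mol h2 hk he hz) (hχ.smul E)).congr (fun _ _ => mul_assoc _ _ _)
      fun _ => mul_assoc _ _ _
  have A2 : Cv (fun n x => ew c s τ x * lp (fun y => χ y * mol (k n) z y) x)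
      fun x => ew c s τ x * (lp χ x * z x + 2 * ∑ i, pd (ee i) χ x * d i x - χ x * G x) :=
    (((tmul (cv_mol h2 hk he hz) (hχ.lp.smul E)).add
      ((tmul (cv_mol h2 hk he (hd 0).1) (((hχ.pd (ee 0)).cmul 2).smul E)).add
      (tmul (cv_mol h2 hk he (hd 1).1) (((hχ.pd (ee 1)).cmul 2).smul E)))).add
      (tmul (cv_mol h2 hk he hG) (hχ.neg.smul E))).congr
      (fun n x => by
        rw [lp_mul hχ.1 (sm n), d3]
        simp only [d1, Fin.sum_univ_two]
        ring) fun x => by rw [Fin.sum_univ_two]; ring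
  have l2 := (Rc1.cv_sq A2).const_mul C
  simp only [← nm_sq] at l2
  obtain ⟨n, hn, hx⟩ := ae_sub A0
  refine hx.mono fun x hx => ?_
  exact le_of_tendsto_of_tendsto' ((hx.pow 2).const_mul τ) (l2.comp hn.tendsto_atTop) fun i =>
    hτ _ ((hχ.mono inter_subset_left).muls (sm (n i))) x

end Pool.Agent.MP_ed9623_an.E16
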