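import Pool.Agent.MP_ed9623_an.E16.Spec
import Pool.Agent.MP_ed9623_an.R1.Fin4

/-! From the alternative to determining functionals. -/

open MeasureTheory Filter Topology Set
open scoped ContDiff InnerProductSpace

namespace Pool.Agent.MP_ed9623_an.E16

open H64 H77

namespace XFin

variable {Ω : Set P}

theorem res (m : MeasurableSet Ω) {f : L} (h : Van Ωᶜ f) : ∃ u : L2 Ω, f =ᵐ[volume] xt Ω u := by
  have a := (Lp.memLp f).restrict Ω
  refine ⟨a.toLp _, ?_⟩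
  filter_upwards [h, (ae_restrict_iff' m).1 a.coeFn_toLp] with p b c
  by_cases hp : p ∈ Ω
  · rw [xt, indicator_of_mem hp, c hp]
  · rw [xt, indicator_of_notMem hp, b hp]

theorem inV (m : MeasurableSet Ω) {u : Fin 2 → L2 Ω} {G : Fin 2 → Fin 2 → L2 Ω} {v : E6}
    (h1 : ∀ j, vl v j =ᵐ[volume] xt Ω (u j)) (h2 : ∀ j i, gj v j i =ᵐ[volume] xt Ω (G j i))
    (h : v ∈ Vs Ω) : InV Ω u G := by
  intro ε hε
  obtain ⟨w, ⟨φ, hφ, hw⟩, hd⟩ := Metric.mem_closure_iff.1 h _ (Real.sqrt_pos.2 hε)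
  have b : ∀ ix, ‖v ix - w ix‖ ^ 2 < ε := fun ix => by
    have : ‖(v - w) ix‖ ≤ ‖v - w‖ := PiLp.norm_apply_le _ ix
    rw [dist_eq_norm] at hd
    exact (Real.lt_sqrt (norm_nonneg _)).1 (this.trans_lt hd)
  exact ⟨φ, hφ, fun i => ⟨(Tr1.dist_sq m (h1 i) (hw i).1 (hφ.1 i)).symm.trans_lt (b (i, none)),
    fun j => (Tr1.dist_sq m (h2 i j) ((hw i).2 j) ((hφ.1 i).pd _)).symm.trans_lt (b (i, some j))⟩⟩

theorem rhs0 (m : MeasurableSet Ω) {g u : Fin 2 → L2 Ω} {φ : Fin 2 → P → ℝ}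
    (hφ : ∀ j, Test Ω (φ j)) {v : E6} (hv : v ∈ Vs Ω) (h1 : ∀ j, vl v j =ᵐ[volume] xt Ω (u j)) :
    rhs Ω g u 0 φ = ip (fun j => xt Ω (g j)) φ - di (fun _ => 0) (gj v) φ
      + tl (fun _ => 0) (vl v) (vl v) φ := by
  have d3 : di (fun _ => 0) (gj v) φ
      = -∑ j, ∑ i, ∫ x, xt Ω (u j) x * pd (ee i) (pd (ee i) (φ j)) x := by
    rw [di, ← Finset.sum_neg_distrib]
    refine Finset.sum_congr rfl fun j _ => ?_
    rw [← Finset.sum_neg_distrib]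
    refine Finset.sum_congr rfl fun i _ => ?_
    have := ((Vs_le Ω hv).1.1 j).w i _ ((hφ j).pd (ee i)).top
    rw [dd_zero] at this ⊢
    exact neg_eq_iff_eq_neg.1
      (this.symm.trans (integral_congr_ae ((h1 j).mul EventuallyEq.rfl)))
  have d4 : ∫ x, xt Ω 0 x * (pd (ee 0) (φ 0) x + pd (ee 1) (φ 1) x) = 0 := by
    refine (integral_congr_ae ?_).trans (integral_zero _ _)
    filter_upwards [(ae_restrict_iff' m).1 (Lp.coeFn_zero ℝ 2 (volume.restrict Ω))] with p c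
    by_cases hp : p ∈ Ω
    · rw [xt, indicator_of_mem hp, c hp, Pi.zero_apply, zero_mul]
    · rw [xt, indicator_of_notMem hp, zero_mul]
  rw [Tr2.rhs_eq m g u 0 hφ, d3, d4, tl_congr h1 h1]
  ring

theorem eqm (m : MeasurableSet Ω) {g : Fin 2 → L2 Ω} {S : St X2 (VV Ω)}
    {D : Pd X2 (VV Ω) (YY Ω)} (hM : Mod Ω (fun j => xt Ω (g j)) S D) {U : ℝ → VV Ω}
    (hU : Sm S univ U) (h : ∀ t, U t = U 0) : ∃ u, (∀ j, vl (U 0).1 j =ᵐ[volume] xt Ω (u j)) ∧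
      Eqm Ω g u ∧ ∀ φ (ζ : YY Ω), (∀ j, Test Ω (φ j)) → Jet φ ζ.1 →
        rhs Ω g u 0 φ = ⟪obs S D U 0, ζ⟫_ℝ := by
  choose f hf using fun ix => res m ((Vs_le Ω (U 0).2).1.2 ix)
  have d : deriv U 0 = 0 := by rw [show U = fun _ => U 0 from funext h, deriv_const]
  refine ⟨fun j => f (j, none), fun j => hf _, ⟨⟨fun j i => f (j, some i),
    inV m (fun j => hf _) (fun j i => hf _) (U 0).2⟩, fun φ hφ => ?_⟩, fun φ ζ hφ hζ => ?_⟩
  · obtain ⟨ζ, hζ⟩ := exists_jetV hφ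
    have e := congrArg (fun y => ⟪y, ζ⟫_ℝ) (hU.2 0 trivial)
    rw [rhs0 m hφ.1 (U 0).2 fun j => hf _]
    simp only [d, map_zero, inner_zero_left] at e
    rw [St.G, inner_sub_left, inner_sub_left, hM.γ, hM.A, hM.B, hζ.ip, hζ.dj, hζ.tj] at e
    linarith
  · rw [rhs0 m hφ (U 0).2 fun j => hf _, obs, d, map_zero, map_zero, sub_zero, inner_sub_left,
      inner_sub_left, hM.γY, hM.AY, hM.BY, hζ.ip, hζ.dj, hζ.tj, sub_neg_eq_add]

end XFin

theorem rowFin : FinS := by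
  intro Ω o hb g hI K
  have m := o.measurableSet
  have mg := fun j => m2_xt m (g j)
  obtain ⟨S, D, hM⟩ := rowModel wLad rowCpt _ _ hb mg
  obtain ⟨N, Λ, hΛ⟩ := aAf S D hM.anti hM.cpt fun R U W hU hW e => by
    obtain ⟨R', hP⟩ := rowCv _ _ S D R U W mg hM hU hW e
    have two : ∀ z : E6, (1 / 2 : ℝ) • z = 0 → z = 0 := fun z hz =>
      (smul_eq_zero.1 hz).resolve_left one_half_pos.ne'
    rcases K R' _ _ hP (tu_of (rowTan (rowEnN aPl rowEqN) rowMaj H77.rowTay) hM hU hW)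
      (R1.tj_of hM hU hW) fun t =>
      Vs_le_Ys _ ((Vs _).smul_mem _ ((Vs _).sub_mem (U t).2 (W t).2)) with (⟨t, ht, a⟩ | a) | a
    · exact ⟨t, ht, Subtype.ext (sub_eq_zero.1 (two _ a))⟩
    · exact ⟨-1, by norm_num, aDec hU hW fun t ht => Subtype.ext (two _ (a t ht))⟩
    have e1 : ∀ y z : E6, y = (1 / 2 : ℝ) • (y + z) + (1 / 2 : ℝ) • (y - z) := fun y z => by module
    have e2 : ∀ y z : E6, z = (1 / 2 : ℝ) • (y + z) - (1 / 2 : ℝ) • (y - z) := fun y z => by module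
    obtain ⟨u, u1, u2, u3⟩ := XFin.eqm m hM hU.1 fun t => Subtype.ext (by
      rw [e1 (U t).1 (W t).1, (a t).1, (a t).2, ← e1])
    obtain ⟨v, v1, v2, v3⟩ := XFin.eqm m hM hW.1 fun t => Subtype.ext (by
      rw [e2 (U t).1 (W t).1, (a t).1, (a t).2, ← e2])
    have uv := hI u v u2 v2 fun φ hφ => by
      obtain ⟨ζ, hζ⟩ := exists_jetY hφ
      rw [u3 φ ζ hφ hζ, v3 φ ζ hφ hζ, e]
    refine ⟨0, le_rfl, Subtype.ext (sub_eq_zero.1 (eq_zero_of_van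
      (Vs_le Ω ((Vs _).sub_mem (U 0).2 (W 0).2)).1 fun j => ?_))⟩
    filter_upwards [co_sub (U 0).1 (W 0).1 (j, none), u1 j, v1 j] with p b c d _
    exact b.trans (sub_eq_zero.2 (c.trans (uv ▸ d.symm)))
  obtain ⟨E, hE⟩ := exists_ext m
  have rz : ∀ i, ∃ ζ : YY Ω, ∀ y, ⟪y, ζ⟫_ℝ = Λ y i := fun i =>
    ⟨(InnerProductSpace.toDual ℝ _).symm (ContinuousLinearMap.proj i ∘L Λ), fun y => by
      rw [real_inner_comm, InnerProductSpace.toDual_symm_apply]; rfl⟩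
  choose ζ hζ using rz
  choose l hl using fun i => exists_int ((m2_gj (ζ i).1 0 0).add (m2_gj (ζ i).1 1 1))
  refine ⟨N, fun i => -(l i ∘L E.toContinuousLinearMap), fun u p v q hu hv hΦ => ?_⟩
  have key : ∀ u p, Traj Ω g u p → ∃ U, Sm S (Ioi 0) U ∧ ∀ t, 0 < t →
      (∀ j, S.ι (U t) j = E (u t j)) ∧ ∀ i, Λ (obs S D U t) i = -l i (E (p t)) := fun u p h => by
    obtain ⟨z, Z, a, b⟩ := rowTr1 _ g S D u p o hM h
    obtain ⟨U, c, d⟩ := aSmooth (itv_Ioi 0) a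
    have e : ∀ t, 0 < t → ∀ j, S.ι (U t) j =ᵐ[volume] xt _ (u t j) := fun t ht j => d t ht ▸ b t j
    refine ⟨U, c, fun t ht => ⟨fun j => Lp.ext ((e t ht j).trans (hE _).symm), fun i => ?_⟩⟩
    rw [← hζ, rowTr2 _ g S D u p U o hM h c e t ht, hl]
    exact congrArg _ (integral_congr_ae ((hE _).symm.mul EventuallyEq.rfl))
  obtain ⟨U, hU, a⟩ := key u p hu
  obtain ⟨W, hW, b⟩ := key v q hv
  refine squeeze_zero' (Eventually.of_forall fun _ => norm_nonneg _) ?_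
    (hΛ U W hU hW (tendsto_pi_nhds.2 fun i => (hΦ i).congr' ?_))
  · filter_upwards [eventually_gt_atTop 0] with t ht
    refine (pi_norm_le_iff_of_nonneg (norm_nonneg _)).2 fun j => ?_
    rw [← E.norm_map, Pi.sub_apply, map_sub, ← (a t ht).1, ← (b t ht).1, map_sub, ← PiLp.sub_apply]
    exact PiLp.norm_apply_le _ j
  · filter_upwards [eventually_gt_atTop 0] with t ht
    rw [map_sub, Pi.sub_apply, (a t ht).2, (b t ht).2]
    rfl

end Pool.Agent.MP_ed9623_an.E16
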