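import Pool.Agent.MP_ed9623_an.E16.Defs
import Pool.Agent.MP_ed9623_an.H77.AllX
import Pool.Agent.MP_ed9623_an.R1.Spec

/-! Statements: unique continuation for the difference of two solutions, and steadiness. -/

open MeasureTheory Filter Topology Set
open scoped ContDiff

namespace Pool.Agent.MP_ed9623_an.E16

open H64 H77

/-- The Laplacian. -/
noncomputable def lp (f : P → ℝ) : P → ℝ :=
  fun p => pd (ee 0) (pd (ee 0) f) p + pd (ee 1) (pd (ee 1) f) p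

/-- The weight at a fixed time. -/
noncomputable def ew (c : P) (s τ : ℝ) (x : P) : ℝ :=
  Real.exp (τ * (H64.mm c s (0, x) * H64.mm c s (0, x)))

/-- The open disc of squared radius `s`. -/
def Dc (c : P) (s : ℝ) : Set P := {x | qq c (0, x) < s}

/-- The open annulus. -/
def An (c : P) (s : ℝ) : Set P := {x | s < qq c (0, x) ∧ qq c (0, x) < 13 / 10 * s}

/-- The curl of the second derivatives `q j i l = ∂_l ∂_i u_j`. -/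
def cq (q : Fin 2 → Fin 2 → Fin 2 → P → ℝ) (l : Fin 2) : P → ℝ := fun p => q 1 0 l p - q 0 1 l p

/-- On `N`, `W` is the curl of `z`, with gradient `D`, and `Wt - Δ W = F`. -/
structure Vt (N : Set P) (M : ℝ) (z : E6) (W Wt : L) (D : Fin 2 → L) (F : P → ℝ) : Prop where
  wd : ∀ i, WD univ (ee i) W (D i)
  nb : ‖z‖ ≤ M ∧ ‖W‖ ≤ M ∧ ∀ i, ‖D i‖ ≤ M
  mF : M2 F ∧ nm F ≤ M
  cu : ∀ᵐ x, x ∈ N → W x = gj z 1 0 x - gj z 0 1 x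
  ht : ∀ φ, Test N φ → (∫ x, Wt x * φ x) + ∑ i, ∫ x, D i x * pd (ee i) φ x = ∫ x, F x * φ x
  e0 : ∀ φ, Test N φ → ∑ i, ∫ x, gj z 0 i x * pd (ee i) φ x = ∫ x, D 1 x * φ x
  e1 : ∀ φ, Test N φ → ∑ i, ∫ x, gj z 1 i x * pd (ee i) φ x = ∫ x, -D 0 x * φ x
  mu : ∀ ψ S, Test N ψ → 0 ≤ S → (∀ j, ∀ᵐ x, |ψ x * vl z j x| ≤ S) →
    nm (fun x => ψ x * F x) ≤ M * (∑ i, nm (fun x => ψ x * D i x) + S)

/-- The same at all times. -/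
def Vc (N : Set P) (z : ℝ → E6) : Prop := ∃ (M : ℝ) (W : ℝ → L) (D : Fin 2 → ℝ → L)
  (F : ℝ → P → ℝ), 0 ≤ M ∧ ContDiff ℝ ∞ W ∧
    ∀ t, Vt N M (z t) (W t) (deriv W t) (fun i => D i t) (F t)

/-- Agmon inequality at scale `l`. -/
def AgS : Prop := ∀ (f : P → ℝ) (l : ℝ), Test univ f → 0 < l → l ≤ 1 → ∀ p, f p ^ 2 ≤
  4 * (nm f ^ 2 / l ^ 2 + nm (pd (ee 0) f) ^ 2 + nm (pd (ee 1) f) ^ 2 + l ^ 2 * nm (lp f) ^ 2)

/-- The elliptic Carleman estimate. -/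
def EcS : Prop := ∀ (c : P) (s : ℝ), 0 < s → ∀ᶠ τ : ℝ in atTop, ∀ g, Test (An c s) g →
  τ * s / 4 * ∑ i, nm (fun x => ew c s τ x * pd (ee i) g x) ^ 2
    + τ ^ 3 * s ^ 4 * nm (fun x => ew c s τ x * g x) ^ 2
      ≤ 4 * nm (fun x => ew c s τ x * lp g x) ^ 2

/-- The weighted pointwise bound, for test functions. -/
def El0S : Prop := ∀ (c : P) (s : ℝ), 0 < s → ∃ C : ℝ, 0 ≤ C ∧ ∀ᶠ τ : ℝ in atTop, ∀ g,
  Test (An c s) g → ∀ x, τ * (ew c s τ x * g x) ^ 2 ≤ C * nm (fun x => ew c s τ x * lp g x) ^ 2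

/-- The weighted pointwise bound, for weak solutions of `- Δ z = G`. -/
def ElS : Prop := ∀ (c : P) (s : ℝ), 0 < s → ∃ C : ℝ, 0 ≤ C ∧ ∀ᶠ τ : ℝ in atTop,
  ∀ (N : Set P) (χ z G : P → ℝ) (d : Fin 2 → P → ℝ), IsOpen N → Test (An c s ∩ N) χ → M2 z →
    M2 G → (∀ i, M2 (d i) ∧ WD univ (ee i) z (d i)) →
    (∀ φ, Test N φ → ∑ i, ∫ x, d i x * pd (ee i) φ x = ∫ x, G x * φ x) →
    ∀ᵐ x, τ * (ew c s τ x * (χ x * z x)) ^ 2 ≤ C * nm (fun x => ew c s τ x *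
      (lp χ x * z x + 2 * ∑ i, pd (ee i) χ x * d i x - χ x * G x)) ^ 2

/-- The Carleman estimate for weak solutions with a bounded gradient. -/
def RcBS : Prop := ∀ (c : P) (s τ β t₀ K M : ℝ) (χ : ST → ℝ) (N : Set P) (W : ℝ → L)
    (D : Fin 2 → ℝ → L) (F : ℝ → P → ℝ) (b : ℝ → ℝ), 0 < s → 0 ≤ τ → IsOpen N → ContDiff ℝ ∞ χ →
  HasCompactSupport χ → (∀ z ∈ tsupport χ, z.2 ∈ N ∧ s ≤ qq c z ∧
    qq c z ≤ 13 / 10 * s ∧ (6 * s - 2 * β * (z.1 - t₀)) ^ 2 ≤ K) → ContDiff ℝ ∞ W →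
  (∀ t i, ‖D i t‖ ≤ M) → (∀ t i, WD univ (ee i) (W t) (D i t)) →
  (∀ t, M2 (F t) ∧ nm (F t) ≤ M ∧ ∀ φ, Test N φ → (∫ x, (deriv W t : L) x * φ x)
    + ∑ i, ∫ x, D i t x * pd (ee i) φ x = ∫ x, F t x * φ x) →
  Integrable b → (∀ t, cR c s τ β t₀ χ W D F t ≤ b t) →
  Integrable (cL c s τ β t₀ K χ W D) ∧ ∫ t, cL c s τ β t₀ K χ W D t ≤ ∫ t, b t

/-- The curl vanishes on a larger disc. -/
def AbS : Prop := ∀ (c : P) (s M : ℝ) (N : Set P) (z : ℝ → E6) (W : ℝ → L) (D : Fin 2 → ℝ → L)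
    (F : ℝ → P → ℝ), 0 < s → 0 ≤ M → IsOpen N → ContDiff ℝ ∞ W → (∀ t, z t ∈ YZ univ) →
  Dc c (3 / 2 * s) ⊆ N → (∀ t, Vt N M (z t) (W t) (deriv W t) (fun i => D i t) (F t)) →
  (∀ t j, Van (Dc c (21 / 20 * s)) (vl (z t) j)) → ∀ t, Van (Dc c (11 / 10 * s)) (W t)

/-- Unique continuation in a connected open set. -/
def UvS : Prop := ∀ (O : Set P) (z : ℝ → E6), IsOpen O → IsPreconnected O →
  (∀ t, z t ∈ YZ univ) → (∀ x ∈ O, ∃ N, IsOpen N ∧ x ∈ N ∧ Vc N z) →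
  (∃ x ∈ O, ∃ ε : ℝ, 0 < ε ∧ ∀ t j, Van (Metric.ball x ε) (vl (z t) j)) →
  ∀ t j, Van O (vl (z t) j)

/-- Interior second derivatives of stationary solutions. -/
def RgS : Prop := ∀ (Ω : Set P) (x : P) (R : ℝ), IsOpen Ω → x ∈ Ω → ∃ r C : ℝ, 0 < r ∧ 0 ≤ C ∧
  Metric.ball x r ⊆ Ω ∧ ∀ u du f, P2 (fun _ => 0) 1 Ω univ R u du f →
    (∀ j, ∀ᵐ p, p ∈ Metric.ball x r → |u j p| ≤ C) ∧ ∃ q : Fin 2 → Fin 2 → Fin 2 → P → ℝ,
      ∀ j i l, M2 (q j i l) ∧ nm (q j i l) ≤ C ∧ WD (Metric.ball x r) (ee l) (du j i) (q j i l)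

/-- The forms in terms of the curl. -/
def VoS : Prop := ∀ (N : Set P) (u : Fin 2 → P → ℝ) (du : Fin 2 → Fin 2 → P → ℝ)
    (q : Fin 2 → Fin 2 → Fin 2 → P → ℝ), IsOpen N → VF (fun _ => 0) u du →
  (∀ j i l, M2 (q j i l) ∧ WD N (ee l) (du j i) (q j i l)) → ∀ θ, Test N θ →
    di (fun _ => 0) du (perp (fun _ => 0) θ) = -∑ l, ∫ x, cq q l x * pd (ee l) θ x ∧
    tl (fun _ => 0) u u (perp (fun _ => 0) θ) = ∑ l, ∫ x, u l x * cq q l x * θ x ∧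
    ∑ i, ∫ x, du 0 i x * pd (ee i) θ x = ∫ x, cq q 1 x * θ x ∧
    ∑ i, ∫ x, du 1 i x * pd (ee i) θ x = ∫ x, -cq q 0 x * θ x

/-- The system solved by the difference of two solutions. -/
def VtS : Prop := ∀ (Ω : Set P) (g : Fin 2 → P → ℝ) (R : ℝ) (U U' : ℝ → E6), IsOpen Ω →
  (∀ j, M2 (g j)) → (∀ t, U t ∈ VZ Ω) → (∀ t, U' t ∈ VZ Ω) → Sv Ω g R U → Sv Ω g R U' →
  ∀ x ∈ Ω, ∃ N, IsOpen N ∧ x ∈ N ∧ Vc N fun t => U t - U' t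

/-- A solution which is steady on an open set is steady. -/
def StS : Prop := ∀ (Ω : Set P) (g : Fin 2 → P → ℝ) (R : ℝ) (U : ℝ → E6), IsOpen Ω →
  IsPreconnected Ω → (∀ j, M2 (g j)) → (∀ t, U t ∈ VZ Ω) → Sv Ω g R U →
  (∃ x ∈ Ω, ∃ ε : ℝ, 0 < ε ∧ ∀ t h j, Van (Metric.ball x ε) (vl (U (t + h) - U t) j)) →
  ∀ t, U t = U 0

/-- The trichotomy at a convex boundary point with varying curvature. -/
def PerS : Prop := ∀ (ρ : P → ℝ) (x : P) (g : Fin 2 → P → ℝ) (R : ℝ) (a w : ℝ → E6),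
  ContDiff ℝ ∞ ρ → (∀ x, ρ x = 0 → fderiv ℝ ρ x ≠ 0) → Bornology.IsBounded {x | ρ x < 0} →
  IsPreconnected {x | ρ x < 0} → ρ x = 0 → 0 < curvature ρ x → dcurvature ρ x ≠ 0 →
  Pv {x | ρ x < 0} g R a w → TU a → (∃ t, t ≤ 0 ∧ w t = 0) ∨
    (∃ δ : ℝ, 0 < δ ∧ ∀ t j, Van (Metric.ball x δ) (vl (a t) j) ∧
      ∀ h, Van (Metric.ball x δ) (vl (w (t + h) - w t) j)) ∨
    ∃ n, 0 < n ∧ S64.Pc ρ x n a w

/-- If the outer boundary is not a circle, there is a convex point with varying curvature. -/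
def GeoS : Prop := ∀ ρ : P → ℝ, ContDiff ℝ ∞ ρ → (∀ x, ρ x = 0 → fderiv ℝ ρ x ≠ 0) →
  Bornology.IsBounded {x | ρ x < 0} → IsConnected {x | ρ x < 0} →
  ¬ Circ ρ → ∃ x, ρ x = 0 ∧ 0 < curvature ρ x ∧ dcurvature ρ x ≠ 0

/-- Two complete bounded solutions with the same pressure coincide or are steady. -/
def KeyS : Prop := ∀ ρ : P → ℝ, ContDiff ℝ ∞ ρ → (∀ x, ρ x = 0 → fderiv ℝ ρ x ≠ 0) →
  Bornology.IsBounded {x | ρ x < 0} → IsConnected {x | ρ x < 0} →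
  ∀ (g : Fin 2 → P → ℝ) (R : ℝ) (a w : ℝ → E6), Pv {x | ρ x < 0} g R a w → TU a → R1.TJ a →
  (∀ t, w t ∈ Ys {x | ρ x < 0}) →
  ((∃ t, t ≤ 0 ∧ w t = 0) ∨ ∀ t, t < 0 → a t = 0) ∨ ∀ t, a t = a 0 ∧ w t = w 0

/-- From the alternative to determining functionals. -/
def FinS : Prop := ∀ Ω : Set P, IsOpen Ω → Bornology.IsBounded Ω → ∀ g : Fin 2 → L2 Ω, PInj Ω g →
  (∀ R a w, Pv Ω (fun j => xt Ω (g j)) R a w → TU a → R1.TJ a → (∀ t, w t ∈ Ys Ω) →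
    ((∃ t, t ≤ 0 ∧ w t = 0) ∨ ∀ t, t < 0 → a t = 0) ∨ ∀ t, a t = a 0 ∧ w t = w 0) →
  ∃ (N : ℕ) (Φ : Fin N → L2 Ω →L[ℝ] ℝ), ∀ u p v q, Traj Ω g u p → Traj Ω g v q →
    (∀ i, Tendsto (fun t => Φ i (p t) - Φ i (q t)) atTop (𝓝 0)) →
    Tendsto (fun t => ‖u t - v t‖) atTop (𝓝 0)

theorem ip_perp {u : Fin 2 → P → ℝ} {du : Fin 2 → Fin 2 → P → ℝ} {θ : P → ℝ}
    (h : ∀ j, H1 (fun _ => 0) (u j) (du j)) (hθ : Test univ θ) :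
    ip u (perp (fun _ => 0) θ) = -∫ x, (du 1 0 x - du 0 1 x) * θ x := by
  have a := (h 0).w 1 θ hθ
  have b := (h 1).w 0 θ hθ
  simp only [sub_mul]
  rw [integral_sub (((h 1).md 0).int_mul hθ.m2) (((h 0).md 1).int_mul hθ.m2), ip, Fin.sum_univ_two]
  change (∫ x, u 0 x * -dd (fun _ => 0) 1 θ x) + (∫ x, u 1 x * dd (fun _ => 0) 0 θ x) = _
  simp only [mul_neg, integral_neg]
  rw [a, b]
  ring

theorem ct_q0 (c : P) : Continuous fun x : P => qq c (0, x) :=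
  (ct_qq c).comp (Continuous.prodMk_right 0)

theorem isOpen_Dc (c : P) (s : ℝ) : IsOpen (Dc c s) := isOpen_lt (ct_q0 c) continuous_const

theorem isOpen_An (c : P) (s : ℝ) : IsOpen (An c s) :=
  (isOpen_lt continuous_const (ct_q0 c)).inter (isOpen_lt (ct_q0 c) continuous_const)

theorem sm_ew (c : P) (s τ : ℝ) : ContDiff ℝ ∞ (ew c s τ) := by
  have : ContDiff ℝ ∞ fun x : P => H64.mm c s (0, x) :=
    (cd_mm c s ∞).comp (contDiff_const.prodMk contDiff_id)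
  exact (contDiff_const.mul (this.mul this)).exp

theorem _root_.Pool.Agent.MP_ed9623_an.H77.Test.lp {O : Set P} {f : P → ℝ} (h : Test O f) :
    Test O (lp f) := ((h.pd _).pd _).add ((h.pd _).pd _)

def OfEl0 : Prop := AgS → EcS → El0S
def OfEl : Prop := El0S → ElS
def OfAb : Prop := ElS → RcBS → AbS
def OfUv : Prop := AbS → UvS
def OfVt : Prop := RgS → VoS → VtS
def OfSt : Prop := UvS → VtS → StS
def OfKey : Prop := StS → PerS → GeoS → KeyS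

end Pool.Agent.MP_ed9623_an.E16
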